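import Pool.Agent.Lib.MP_9a5726_an.Defs

/-!
# The group of maps `z ↦ e^s z + b` acting on the sphere and on continuous self-maps
-/

open Topology Polynomial OnePoint Filter

namespace Pool.Agent.Lib.HermanClass

noncomputable section

/-- The group law of `z ↦ e^s z + b`. -/
def mu (g h : ℝ × ℂ) : ℝ × ℂ := (g.1 + h.1, g.2 + (Real.exp g.1 : ℂ) * h.2)

/-- The inverse. -/
def iv (g : ℝ × ℂ) : ℝ × ℂ := (-g.1, -(Real.exp (-g.1) : ℂ) * g.2)

lemma exp_mul_exp_neg (s : ℝ) : (Real.exp s : ℂ) * (Real.exp (-s) : ℂ) = 1 := by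
  rw [← Complex.ofReal_mul, ← Real.exp_add]; simp

lemma mu_assoc (g h k : ℝ × ℂ) : mu (mu g h) k = mu g (mu h k) := by
  ext
  · simp [mu]; ring
  · simp only [mu, Real.exp_add, Complex.ofReal_mul]; ring

lemma mu_iv (g : ℝ × ℂ) : mu g (iv g) = 0 := by
  ext
  · simp [mu, iv]
  · simp only [mu, iv]
    have := exp_mul_exp_neg g.1
    have h2 : g.2 + (Real.exp g.1 : ℂ) * (-(Real.exp (-g.1) : ℂ) * g.2)
        = g.2 - ((Real.exp g.1 : ℂ) * (Real.exp (-g.1) : ℂ)) * g.2 := by ring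
    rw [h2, this]; simp

lemma iv_mu (g : ℝ × ℂ) : mu (iv g) g = 0 := by
  ext
  · simp [mu, iv]
  · simp [mu, iv]

lemma mu_zero (g : ℝ × ℂ) : mu g 0 = g := by
  ext <;> simp [mu]

lemma zero_mu (g : ℝ × ℂ) : mu 0 g = g := by
  ext <;> simp [mu]

lemma iv_iv (g : ℝ × ℂ) : iv (iv g) = g := by
  have h1 : mu (iv g) (iv (iv g)) = 0 := mu_iv (iv g)
  calc iv (iv g) = mu 0 (iv (iv g)) := (zero_mu _).symm
    _ = mu (mu g (iv g)) (iv (iv g)) := by rw [mu_iv]
    _ = g := by rw [mu_assoc, h1, mu_zero]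

lemma continuous_mu : Continuous fun p : (ℝ × ℂ) × (ℝ × ℂ) => mu p.1 p.2 := by
  unfold mu; fun_prop

lemma continuous_iv : Continuous iv := by
  unfold iv; fun_prop

/-- The action on the sphere. -/
def aff (g : ℝ × ℂ) (z : OnePoint ℂ) : OnePoint ℂ :=
  OnePoint.map (fun w : ℂ => (Real.exp g.1 : ℂ) * w + g.2) z

@[simp] lemma aff_infty (g : ℝ × ℂ) : aff g ∞ = ∞ := rfl

@[simp] lemma aff_coe (g : ℝ × ℂ) (w : ℂ) :
    aff g (w : OnePoint ℂ) = (((Real.exp g.1 : ℂ) * w + g.2 : ℂ) : OnePoint ℂ) := rfl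

lemma aff_mu (g h : ℝ × ℂ) (z : OnePoint ℂ) : aff (mu g h) z = aff g (aff h z) := by
  induction z using OnePoint.rec with
  | infty => rfl
  | coe w =>
    simp only [aff_coe, mu]
    rw [OnePoint.some_eq_iff, Real.exp_add, Complex.ofReal_mul]; ring

@[simp] lemma aff_zero (z : OnePoint ℂ) : aff 0 z = z := by
  induction z using OnePoint.rec with
  | infty => rfl
  | coe w => simp [aff_coe]

lemma aff_iv_aff (g : ℝ × ℂ) (z : OnePoint ℂ) : aff (iv g) (aff g z) = z := by
  rw [← aff_mu, iv_mu, aff_zero]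

lemma aff_aff_iv (g : ℝ × ℂ) (z : OnePoint ℂ) : aff g (aff (iv g) z) = z := by
  rw [← aff_mu, mu_iv, aff_zero]

/-- Joint continuity of the action on the sphere. -/
lemma continuous_aff : Continuous fun p : (ℝ × ℂ) × OnePoint ℂ => aff p.1 p.2 := by
  rw [continuous_iff_continuousAt]
  rintro ⟨g, z⟩
  induction z using OnePoint.rec with
  | infty =>
    rw [ContinuousAt, nhds_prod_eq, OnePoint.nhds_infty_eq, Filter.prod_sup, tendsto_sup]
    constructor
    · have h1 : Tendsto (fun p : (ℝ × ℂ) × ℂ => (Real.exp p.1.1 : ℂ) * p.2 + p.1.2)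
          (𝓝 g ×ˢ coclosedCompact ℂ) (coclosedCompact ℂ) := by
        rw [coclosedCompact_eq_cocompact]
        refine tendsto_cocompact_of_tendsto_dist_comp_atTop (0 : ℂ) ?_
        simp only [dist_zero_right]
        have h2 : Tendsto (fun p : (ℝ × ℂ) × ℂ => Real.exp (g.1 - 1) * ‖p.2‖ - (‖g.2‖ + 1))
            (𝓝 g ×ˢ cocompact ℂ) atTop := by
          apply tendsto_atTop_add_const_right
          apply Tendsto.const_mul_atTop (Real.exp_pos _)
          exact (tendsto_norm_cocompact_atTop).comp tendsto_snd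
        refine tendsto_atTop_mono' _ ?_ h2
        have h3 : ∀ᶠ q in 𝓝 g, g.1 - 1 < q.1 :=
          (continuous_fst.tendsto g).eventually (lt_mem_nhds (by linarith))
        have h4 : ∀ᶠ q in 𝓝 g, ‖q.2‖ < ‖g.2‖ + 1 :=
          ((continuous_norm.comp continuous_snd).tendsto g).eventually
            (gt_mem_nhds (by simp))
        filter_upwards [(h3.and h4).prod_inl (cocompact ℂ)] with p hp
        obtain ⟨hp1, hp2⟩ := hp
        have h5 : ‖(Real.exp p.1.1 : ℂ) * p.2‖ = Real.exp p.1.1 * ‖p.2‖ := by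
          rw [norm_mul, Complex.norm_real, Real.norm_eq_abs, abs_of_pos (Real.exp_pos _)]
        have h6 : ‖(Real.exp p.1.1 : ℂ) * p.2‖ - ‖p.1.2‖
            ≤ ‖(Real.exp p.1.1 : ℂ) * p.2 + p.1.2‖ := by
          have := norm_sub_le ((Real.exp p.1.1 : ℂ) * p.2 + p.1.2) p.1.2
          simp only [add_sub_cancel_right] at this
          linarith
        have h7 : Real.exp (g.1 - 1) * ‖p.2‖ ≤ Real.exp p.1.1 * ‖p.2‖ :=
          mul_le_mul_of_nonneg_right (Real.exp_le_exp.mpr hp1.le) (norm_nonneg _)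
        linarith
      have h8 : Tendsto (fun p : (ℝ × ℂ) × ℂ => aff p.1 (p.2 : OnePoint ℂ))
          (𝓝 g ×ˢ coclosedCompact ℂ) (𝓝 ∞) := OnePoint.tendsto_coe_infty.comp h1
      rw [show 𝓝 g ×ˢ map OnePoint.some (coclosedCompact ℂ)
          = map (Prod.map id OnePoint.some) (𝓝 g ×ˢ coclosedCompact ℂ) by
            rw [Filter.prod_map_right]]
      exact h8
    · rw [prod_pure, tendsto_map'_iff]
      exact tendsto_const_nhds
  | coe w =>
    have h1 : ContinuousAt (fun p : (ℝ × ℂ) × ℂ =>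
        (((Real.exp p.1.1 : ℂ) * p.2 + p.1.2 : ℂ) : OnePoint ℂ)) (g, w) := by
      apply OnePoint.continuous_coe.continuousAt.comp
      fun_prop
    rw [ContinuousAt, nhds_prod_eq, OnePoint.nhds_coe_eq]
    rw [show 𝓝 g ×ˢ map OnePoint.some (𝓝 w)
          = map (Prod.map id OnePoint.some) (𝓝 g ×ˢ 𝓝 w) by
            rw [Filter.prod_map_right]]
    rw [ContinuousAt, nhds_prod_eq] at h1
    exact h1

/-- The action map as a continuous map of the sphere. -/
def affC (g : ℝ × ℂ) : C(OnePoint ℂ, OnePoint ℂ) :=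
  ⟨aff g, continuous_aff.comp (Continuous.prodMk_right g)⟩

@[simp] lemma affC_apply (g : ℝ × ℂ) (z : OnePoint ℂ) : affC g z = aff g z := rfl

lemma continuous_affC : Continuous affC :=
  ContinuousMap.continuous_of_continuous_uncurry _ continuous_aff

/-- The homeomorphism of the sphere. -/
def affH (g : ℝ × ℂ) : OnePoint ℂ ≃ₜ OnePoint ℂ where
  toFun := aff g
  invFun := aff (iv g)
  left_inv := aff_iv_aff g
  right_inv := aff_aff_iv g
  continuous_toFun := (affC g).continuous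
  continuous_invFun := (affC (iv g)).continuous

@[simp] lemma affH_apply (g : ℝ × ℂ) (z : OnePoint ℂ) : affH g z = aff g z := rfl

@[simp] lemma affH_symm_apply (g : ℝ × ℂ) (z : OnePoint ℂ) : (affH g).symm z = aff (iv g) z := rfl

/-- Conjugation of continuous self-maps of the sphere. -/
def cj (g : ℝ × ℂ) (f : C(OnePoint ℂ, OnePoint ℂ)) : C(OnePoint ℂ, OnePoint ℂ) :=
  (affC g).comp (f.comp (affC (iv g)))

@[simp] lemma cj_apply (g : ℝ × ℂ) (f : C(OnePoint ℂ, OnePoint ℂ)) (z : OnePoint ℂ) :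
    cj g f z = aff g (f (aff (iv g) z)) := rfl

lemma continuous_cj : Continuous fun p : (ℝ × ℂ) × C(OnePoint ℂ, OnePoint ℂ) => cj p.1 p.2 := by
  unfold cj
  exact (continuous_affC.comp continuous_fst).compCM
    (continuous_snd.compCM ((continuous_affC.comp continuous_iv).comp continuous_fst))

lemma iv_mu_mu (g h : ℝ × ℂ) : iv (mu g h) = mu (iv h) (iv g) := by
  have h1 : mu (mu (iv h) (iv g)) (mu g h) = 0 := by
    rw [mu_assoc, ← mu_assoc (iv g) g h, iv_mu, zero_mu, iv_mu]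
  calc iv (mu g h) = mu 0 (iv (mu g h)) := (zero_mu _).symm
    _ = mu (mu (mu (iv h) (iv g)) (mu g h)) (iv (mu g h)) := by rw [h1]
    _ = mu (iv h) (iv g) := by rw [mu_assoc, mu_iv, mu_zero]

lemma cj_mu (g h : ℝ × ℂ) (f : C(OnePoint ℂ, OnePoint ℂ)) : cj (mu g h) f = cj g (cj h f) := by
  ext z
  simp only [cj_apply, aff_mu, iv_mu_mu]

lemma cj_zero (f : C(OnePoint ℂ, OnePoint ℂ)) : cj 0 f = f := by
  ext z
  have : iv (0 : ℝ × ℂ) = 0 := by ext <;> simp [iv]
  simp only [cj_apply, this, aff_zero]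

lemma aff_sph (g : ℝ × ℂ) (x y : ℂ) :
    aff g (sph x y) = sph ((Real.exp g.1 : ℂ) * x + g.2 * y) y := by
  unfold sph
  split_ifs with h
  · rfl
  · rw [aff_coe, OnePoint.some_eq_iff]; field_simp

lemma sph_mul (c x y : ℂ) (hc : c ≠ 0) : sph (c * x) (c * y) = sph x y := by
  unfold sph
  by_cases h : y = 0
  · simp [h]
  · simp only [h, hc, mul_eq_zero, or_self, if_false]
    rw [OnePoint.some_eq_iff]; field_simp

end

end Pool.Agent.Lib.HermanClass
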