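import Pool.Agent.Lib.MP_9a5726_an.Nu

/-!
# The equivariant centre of a pair of polynomials
-/

open Topology Polynomial OnePoint Filter MeasureTheory

namespace Pool.Agent.Lib.HermanClass

noncomputable section

/-- Total mass. -/
def I0 (d : ℕ) (P Q : ℂ[X]) : ℝ := ∫ g : ℝ × ℂ, ww d P Q g

/-- First moment, first coordinate. -/
def I1 (d : ℕ) (P Q : ℂ[X]) : ℝ := ∫ g : ℝ × ℂ, ww d P Q g * g.1

/-- First moment, second coordinate. -/
def I2 (d : ℕ) (P Q : ℂ[X]) : ℂ := ∫ g : ℝ × ℂ, ww d P Q g • g.2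

/-- The centre. -/
def cen (d : ℕ) (P Q : ℂ[X]) : ℝ × ℂ := (I1 d P Q / I0 d P Q, (I0 d P Q)⁻¹ • I2 d P Q)

section bounds

variable {d : ℕ} {m : ℝ} {P Q : ℂ[X]}

/-- The constant. -/
def cst (d : ℕ) (m : ℝ) : ℝ := ((m / 2 ^ (d - 1)) ^ 16)⁻¹

lemma bound0 (hd : 2 ≤ d) (hm : 0 < m) (h : Good d m P Q) (g : ℝ × ℂ) :
    ‖ww d P Q g‖ ≤ cst d m * dom g := by
  rw [Real.norm_eq_abs, abs_of_nonneg (ww_nonneg _ _ _ _)]
  refine (ww_le hd hm h g).trans ?_
  unfold dom cst
  have hX := XX_pos g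
  have h1 : (1 : ℝ) ≤ (1 + |g.1|) * (1 + ‖g.2‖) := by
    nlinarith [abs_nonneg g.1, norm_nonneg g.2, mul_nonneg (abs_nonneg g.1) (norm_nonneg g.2)]
  apply mul_le_mul_of_nonneg_left _ (by positivity)
  exact le_mul_of_one_le_left (by positivity) h1

lemma bound1 (hd : 2 ≤ d) (hm : 0 < m) (h : Good d m P Q) (g : ℝ × ℂ) :
    ‖ww d P Q g * g.1‖ ≤ cst d m * dom g := by
  rw [norm_mul, Real.norm_eq_abs, abs_of_nonneg (ww_nonneg _ _ _ _), Real.norm_eq_abs]
  have h0 := ww_le hd hm h g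
  unfold dom cst
  have hX := XX_pos g
  have h1 : |g.1| ≤ (1 + |g.1|) * (1 + ‖g.2‖) := by
    nlinarith [abs_nonneg g.1, norm_nonneg g.2, mul_nonneg (abs_nonneg g.1) (norm_nonneg g.2)]
  calc ww d P Q g * |g.1| ≤ (((m / 2 ^ (d - 1)) ^ 16)⁻¹ *
        ((XX g ^ 16)⁻¹ * Real.exp (-2 * g.1))) * |g.1| :=
        mul_le_mul_of_nonneg_right h0 (abs_nonneg _)
    _ ≤ (((m / 2 ^ (d - 1)) ^ 16)⁻¹ *
        ((XX g ^ 16)⁻¹ * Real.exp (-2 * g.1))) * ((1 + |g.1|) * (1 + ‖g.2‖)) :=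
        mul_le_mul_of_nonneg_left h1 (by positivity)
    _ = _ := by ring

lemma bound2 (hd : 2 ≤ d) (hm : 0 < m) (h : Good d m P Q) (g : ℝ × ℂ) :
    ‖ww d P Q g • g.2‖ ≤ cst d m * dom g := by
  rw [norm_smul, Real.norm_eq_abs, abs_of_nonneg (ww_nonneg _ _ _ _)]
  have h0 := ww_le hd hm h g
  unfold dom cst
  have hX := XX_pos g
  have h1 : ‖g.2‖ ≤ (1 + |g.1|) * (1 + ‖g.2‖) := by
    nlinarith [abs_nonneg g.1, norm_nonneg g.2, mul_nonneg (abs_nonneg g.1) (norm_nonneg g.2)]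
  calc ww d P Q g * ‖g.2‖ ≤ (((m / 2 ^ (d - 1)) ^ 16)⁻¹ *
        ((XX g ^ 16)⁻¹ * Real.exp (-2 * g.1))) * ‖g.2‖ :=
        mul_le_mul_of_nonneg_right h0 (norm_nonneg _)
    _ ≤ (((m / 2 ^ (d - 1)) ^ 16)⁻¹ *
        ((XX g ^ 16)⁻¹ * Real.exp (-2 * g.1))) * ((1 + |g.1|) * (1 + ‖g.2‖)) :=
        mul_le_mul_of_nonneg_left h1 (by positivity)
    _ = _ := by ring

lemma continuous_ww (hd : 2 ≤ d) (hm : 0 < m) (h : Good d m P Q) : Continuous (ww d P Q) := by
  unfold ww
  refine Continuous.mul (Continuous.inv₀ ((continuous_nu d P Q).pow 16) ?_) (by fun_prop)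
  intro g
  exact pow_ne_zero _ (nu_pos hd hm h g).ne'

lemma int0 (hd : 2 ≤ d) (hm : 0 < m) (h : Good d m P Q) : Integrable (ww d P Q) :=
  (integrable_dom.const_mul (cst d m)).mono' (continuous_ww hd hm h).aestronglyMeasurable
    (Eventually.of_forall (bound0 hd hm h))

lemma int1 (hd : 2 ≤ d) (hm : 0 < m) (h : Good d m P Q) :
    Integrable (fun g => ww d P Q g * g.1) :=
  (integrable_dom.const_mul (cst d m)).mono'
    ((continuous_ww hd hm h).mul continuous_fst).aestronglyMeasurable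
    (Eventually.of_forall (bound1 hd hm h))

lemma int2 (hd : 2 ≤ d) (hm : 0 < m) (h : Good d m P Q) :
    Integrable (fun g => ww d P Q g • g.2) :=
  (integrable_dom.const_mul (cst d m)).mono'
    ((continuous_ww hd hm h).smul continuous_snd).aestronglyMeasurable
    (Eventually.of_forall (bound2 hd hm h))

lemma I0_pos (hd : 2 ≤ d) (hm : 0 < m) (h : Good d m P Q) : 0 < I0 d P Q := by
  unfold I0
  have hpos : ∀ g, 0 < ww d P Q g := fun g => by
    unfold ww
    have := nu_pos hd hm h g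
    positivity
  rw [integral_pos_iff_support_of_nonneg (fun g => (hpos g).le) (int0 hd hm h)]
  have : Function.support (ww d P Q) = Set.univ := by
    ext g; simp [(hpos g).ne']
  rw [this]
  exact Measure.measure_univ_pos.mpr (NeZero.ne _)

end bounds

/-- Change of variables. -/
lemma map_mu (k : ℝ × ℂ) :
    Measure.map (mu k) (volume : Measure (ℝ × ℂ))
      = ENNReal.ofReal (Real.exp (-2 * k.1)) • (volume : Measure (ℝ × ℂ)) := by
  have h1 : mu k = Prod.map (fun s : ℝ => k.1 + s)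
      (fun b : ℂ => k.2 + (Real.exp k.1 : ℝ) • b) := by
    ext g <;> simp [mu]
  have h2 : Measure.map (fun s : ℝ => k.1 + s) volume = volume :=
    map_add_left_eq_self volume k.1
  have h3 : Measure.map (fun b : ℂ => k.2 + (Real.exp k.1 : ℝ) • b) volume
      = ENNReal.ofReal (Real.exp (-2 * k.1)) • (volume : Measure ℂ) := by
    have h4 : (fun b : ℂ => k.2 + (Real.exp k.1 : ℝ) • b)
        = (fun b : ℂ => k.2 + b) ∘ (fun b : ℂ => (Real.exp k.1 : ℝ) • b) := rfl
    rw [h4, ← Measure.map_map (by fun_prop) (by fun_prop),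
      Measure.map_addHaar_smul volume (Real.exp_pos _).ne', Measure.map_smul,
      map_add_left_eq_self, Complex.finrank_real_complex]
    congr 2
    rw [abs_of_pos (by positivity), ← Real.exp_nat_mul, ← Real.exp_neg]
    congr 1; push_cast; ring
  rw [h1, Measure.volume_eq_prod, ← Measure.map_prod_map _ _ (by fun_prop) (by fun_prop), h2, h3,
    Measure.prod_smul_right]

lemma integral_mu {E : Type*} [NormedAddCommGroup E] [NormedSpace ℝ E] (k : ℝ × ℂ)
    (G : ℝ × ℂ → E) : ∫ g, G (mu k g) = Real.exp (-2 * k.1) • ∫ g, G g := by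
  have hemb : MeasurableEmbedding (mu k) := by
    let e : ℝ × ℂ ≃ₜ ℝ × ℂ :=
      { toFun := mu k
        invFun := mu (iv k)
        left_inv := fun g => by rw [← mu_assoc, iv_mu, zero_mu]
        right_inv := fun g => by rw [← mu_assoc, mu_iv, zero_mu]
        continuous_toFun := continuous_mu.comp (Continuous.prodMk_right k)
        continuous_invFun := continuous_mu.comp (Continuous.prodMk_right (iv k)) }
    exact e.measurableEmbedding
  rw [← hemb.integral_map, map_mu, integral_smul_measure, ENNReal.toReal_ofReal (Real.exp_pos _).le]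

end

end Pool.Agent.Lib.HermanClass
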