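import Mathlib

/-!
# Herman rings of rational maps: the definitions of the problem

The Riemann sphere is `OnePoint ℂ`; the space of rational maps of degree `d` is a subspace of
the space of continuous self-maps of the sphere with the compact-open topology, that is, the
topology of uniform convergence.
-/

open Topology Polynomial OnePoint

namespace Pool.Agent.Lib.HermanClass

noncomputable section

/-- The point `[x : y]` of the Riemann sphere (for `(x, y) ≠ (0, 0)`): it is `x / y` if `y ≠ 0`
and `∞` if `y = 0`. -/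
def sph (x y : ℂ) : OnePoint ℂ := if y = 0 then ∞ else ((x / y : ℂ) : OnePoint ℂ)

/-- The value at a point of the Riemann sphere of the rational function `P / Q`, where
`P` and `Q` are coprime and the larger of their degrees is `d`. -/
def ratVal (d : ℕ) (P Q : ℂ[X]) (z : OnePoint ℂ) : OnePoint ℂ :=
  z.elim (sph (P.coeff d) (Q.coeff d)) (fun w => sph (P.eval w) (Q.eval w))

/-- The space `R_d` of rational maps of degree `d`, with the topology of uniform convergence. -/
def RatMap (d : ℕ) : Set C(OnePoint ℂ, OnePoint ℂ) :=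
  {f | ∃ P Q : ℂ[X], IsCoprime P Q ∧ max P.natDegree Q.natDegree = d ∧
    ∀ z, f z = ratVal d P Q z}

/-- The Fatou set: the points with an open neighbourhood `U` on which the iterates of `f` form
a normal family, that is, a relatively compact family in the space of continuous maps from
`U` to the sphere with the topology of locally uniform convergence. -/
def fatou (f : C(OnePoint ℂ, OnePoint ℂ)) : Set (OnePoint ℂ) :=
  {z | ∃ U : Set (OnePoint ℂ), IsOpen U ∧ z ∈ U ∧
    IsCompact (closure {g : C(U, OnePoint ℂ) | ∃ n : ℕ, ∀ w : U, g w = f^[n] w})}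

/-- The round annulus `{1 < |z| < r}`. -/
def annulus (r : ℝ) : Set ℂ := {z | 1 < ‖z‖ ∧ ‖z‖ < r}

/-- A map from the plane to the sphere is holomorphic near `z₀`: near `z₀` it is a
holomorphic function or the reciprocal `[1 : g]` of a holomorphic function `g`. -/
def HolAt (φ : ℂ → OnePoint ℂ) (z₀ : ℂ) : Prop :=
  ∃ g : ℂ → ℂ, AnalyticAt ℂ g z₀ ∧
    ((∀ᶠ z in 𝓝 z₀, φ z = (g z : OnePoint ℂ)) ∨ (∀ᶠ z in 𝓝 z₀, φ z = sph 1 (g z)))

/-- `A` is an invariant Herman ring of `f` of rotation number `α`: a connected component of the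
Fatou set with `f(A) = A`, on which `f` is conformally conjugate to the rotation
`z ↦ exp(2π i α) z` of a round annulus. -/
def IsHermanRing (f : C(OnePoint ℂ, OnePoint ℂ)) (α : ℝ) (A : Set (OnePoint ℂ)) : Prop :=
  (∃ x ∈ fatou f, A = connectedComponentIn (fatou f) x) ∧ f '' A = A ∧
    ∃ r : ℝ, 1 < r ∧ ∃ φ : ℂ → OnePoint ℂ, (∀ z ∈ annulus r, HolAt φ z) ∧
      Set.InjOn φ (annulus r) ∧ φ '' annulus r = A ∧
      ∀ z ∈ annulus r, f (φ z) = φ (Complex.exp (2 * Real.pi * Complex.I * α) * z)

/-- Continuity at `t₀`, in the sense of Caratheodory kernel convergence, of a family of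
domains of the sphere: every compact subset of `A t₀` lies in `A t` for `t` near `t₀`, and every
boundary point of `A t₀` is a limit of boundary points of `A t`. -/
def KernelContAt (A : unitInterval → Set (OnePoint ℂ)) (t₀ : unitInterval) : Prop :=
  (∀ K : Set (OnePoint ℂ), IsCompact K → K ⊆ A t₀ → ∀ᶠ t in 𝓝 t₀, K ⊆ A t) ∧
  (∀ w ∈ frontier (A t₀), ∀ V ∈ 𝓝 w, ∀ᶠ t in 𝓝 t₀, (V ∩ frontier (A t)).Nonempty)

/-- The class `H_{d,α}` of `f₀` with its Herman ring `A₀`: the end points `f₁` of paths
`t ↦ f_t` in `R_d` that start at `f₀`, such that `f_t` has an invariant Herman ring `A_t` of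
rotation number `α`, with `A_0 = A₀` and `A_t` depending continuously on `t`. -/
def hermanClass (d : ℕ) (α : ℝ) (f₀ : RatMap d) (A₀ : Set (OnePoint ℂ)) : Set (RatMap d) :=
  {f₁ | ∃ (γ : C(unitInterval, RatMap d)) (A : unitInterval → Set (OnePoint ℂ)),
    γ 0 = f₀ ∧ A 0 = A₀ ∧ γ 1 = f₁ ∧ (∀ t, IsHermanRing (γ t) α (A t)) ∧
    ∀ t, KernelContAt A t}

/-- The boundary of `H` relative to its closure: the closure of `H` minus the interior of `H`
taken in the closure of `H`. -/
def relBoundary {X : Type*} [TopologicalSpace X] (H : Set X) : Set X :=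
  {x ∈ closure H | H ∉ 𝓝[closure H] x}

end

end Pool.Agent.Lib.HermanClass
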