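import Pool.Agent.Lib.MP_9a5726_an.Act

/-!
# Invariance of the class and of its relative boundary under the maps `z ↦ e^s z + b`
-/

open Topology Polynomial OnePoint Filter

namespace Pool.Agent.Lib.HermanClass

noncomputable section

/-- `f` is represented by the coprime pair `P, Q` of degree `d`. -/
def Rep (d : ℕ) (P Q : ℂ[X]) (f : C(OnePoint ℂ, OnePoint ℂ)) : Prop :=
  P.natDegree ≤ d ∧ Q.natDegree ≤ d ∧ IsCoprime P Q ∧ (P.coeff d ≠ 0 ∨ Q.coeff d ≠ 0) ∧
    ∀ z, f z = ratVal d P Q z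

lemma mem_ratMap_iff {d : ℕ} (hd : 1 ≤ d) (f : C(OnePoint ℂ, OnePoint ℂ)) :
    f ∈ RatMap d ↔ ∃ P Q, Rep d P Q f := by
  constructor
  · rintro ⟨P, Q, hc, hm, hf⟩
    refine ⟨P, Q, hm ▸ le_max_left _ _, hm ▸ le_max_right _ _, hc, ?_, hf⟩
    rcases max_choice P.natDegree Q.natDegree with h | h
    · left
      rw [hm] at h
      have hP : P ≠ 0 := by rintro rfl; simp at h; omega
      rw [h]; exact leadingCoeff_ne_zero.mpr hP
    · right
      rw [hm] at h
      have hQ : Q ≠ 0 := by rintro rfl; simp at h; omega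
      rw [h]; exact leadingCoeff_ne_zero.mpr hQ
  · rintro ⟨P, Q, h1, h2, hc, h3, hf⟩
    refine ⟨P, Q, hc, le_antisymm (max_le h1 h2) ?_, hf⟩
    rcases h3 with h | h
    · exact le_trans (le_natDegree_of_ne_zero h) (le_max_left _ _)
    · exact le_trans (le_natDegree_of_ne_zero h) (le_max_right _ _)

lemma coeff_comp_lin {d : ℕ} (P : ℂ[X]) (hP : P.natDegree ≤ d) (a b : ℂ) (ha : a ≠ 0) :
    (P.comp (C a * X + C b)).coeff d = a ^ d * P.coeff d := by
  have hL : (C a * X + C b : ℂ[X]).natDegree = 1 := natDegree_linear ha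
  rcases hP.lt_or_eq with h | h
  · have h1 : (P.comp (C a * X + C b)).natDegree < d := by
      rw [natDegree_comp, hL, mul_one]; exact h
    rw [coeff_eq_zero_of_natDegree_lt h1, coeff_eq_zero_of_natDegree_lt h, mul_zero]
  · have h1 : (P.comp (C a * X + C b)).natDegree = d := by
      rw [natDegree_comp, hL, mul_one]; exact h
    have h2 := leadingCoeff_comp (p := P) (q := C a * X + C b) (by rw [hL]; norm_num)
    have h3 : (C a * X + C b : ℂ[X]).leadingCoeff = a := leadingCoeff_linear ha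
    rw [leadingCoeff, h1, h3, h, leadingCoeff, h] at h2
    rw [h2, mul_comm]

/-- The polynomial of the map inverse to `z ↦ e^s z + b`. -/
def linP (g : ℝ × ℂ) : ℂ[X] := C ((Real.exp (-g.1) : ℝ) : ℂ) * X + C (iv g).2

lemma linP_eval (g : ℝ × ℂ) (w : ℂ) :
    (linP g).eval w = (Real.exp (iv g).1 : ℂ) * w + (iv g).2 := by
  simp [linP, iv]

lemma rep_cj {d : ℕ} {P Q : ℂ[X]} {f : C(OnePoint ℂ, OnePoint ℂ)} (g : ℝ × ℂ)
    (h : Rep d P Q f) :
    Rep d (C (Real.exp g.1 : ℂ) * P.comp (linP g) + C g.2 * Q.comp (linP g))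
      (Q.comp (linP g)) (cj g f) := by
  obtain ⟨h1, h2, ⟨u, v, huv⟩, h3, hf⟩ := h
  have hE : (Real.exp g.1 : ℂ) ≠ 0 := by
    exact_mod_cast (Real.exp_pos _).ne'
  have hE' : ((Real.exp (-g.1) : ℝ) : ℂ) ≠ 0 := by
    exact_mod_cast (Real.exp_pos _).ne'
  have hL : (linP g).natDegree = 1 := natDegree_linear hE'
  have d1 : (P.comp (linP g)).natDegree ≤ d := by rw [natDegree_comp, hL, mul_one]; exact h1
  have d2 : (Q.comp (linP g)).natDegree ≤ d := by rw [natDegree_comp, hL, mul_one]; exact h2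
  have c1 : (P.comp (linP g)).coeff d = ((Real.exp (-g.1) : ℝ) : ℂ) ^ d * P.coeff d :=
    coeff_comp_lin P h1 _ _ hE'
  have c2 : (Q.comp (linP g)).coeff d = ((Real.exp (-g.1) : ℝ) : ℂ) ^ d * Q.coeff d :=
    coeff_comp_lin Q h2 _ _ hE'
  have c3 : (C (Real.exp g.1 : ℂ) * P.comp (linP g) + C g.2 * Q.comp (linP g)).coeff d
      = ((Real.exp (-g.1) : ℝ) : ℂ) ^ d * ((Real.exp g.1 : ℂ) * P.coeff d + g.2 * Q.coeff d) := by
    rw [coeff_add, coeff_C_mul, coeff_C_mul, c1, c2]; ring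
  refine ⟨?_, d2, ?_, ?_, ?_⟩
  · exact natDegree_add_le_of_degree_le ((natDegree_C_mul_le _ _).trans d1)
      ((natDegree_C_mul_le _ _).trans d2)
  · have huv' : u.comp (linP g) * P.comp (linP g) + v.comp (linP g) * Q.comp (linP g) = 1 := by
      have := congrArg (fun R => R.comp (linP g)) huv
      simpa using this
    refine ⟨u.comp (linP g) * C ((Real.exp g.1 : ℂ)⁻¹),
      v.comp (linP g) - u.comp (linP g) * C ((Real.exp g.1 : ℂ)⁻¹) * C g.2, ?_⟩
    have hc : C ((Real.exp g.1 : ℂ)⁻¹) * C (Real.exp g.1 : ℂ) = (1 : ℂ[X]) := by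
      rw [← C_mul, inv_mul_cancel₀ hE, C_1]
    calc _ = (C ((Real.exp g.1 : ℂ)⁻¹) * C (Real.exp g.1 : ℂ)) *
          (u.comp (linP g) * P.comp (linP g)) + v.comp (linP g) * Q.comp (linP g) := by ring
      _ = 1 := by rw [hc, one_mul, huv']
  · rw [c3, c2]
    have hp : ((Real.exp (-g.1) : ℝ) : ℂ) ^ d ≠ 0 := pow_ne_zero _ hE'
    by_cases hQ : Q.coeff d = 0
    · left
      rw [hQ, mul_zero, add_zero]
      rcases h3 with h | h
      · exact mul_ne_zero hp (mul_ne_zero hE h)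
      · exact absurd hQ h
    · right; exact mul_ne_zero hp hQ
  · intro z
    induction z using OnePoint.rec with
    | infty =>
      show aff g (f ∞) = sph _ _
      rw [hf ∞, c3, c2, sph_mul _ _ _ (pow_ne_zero _ hE')]
      exact aff_sph g _ _
    | coe w =>
      show aff g (f (aff (iv g) w)) = sph _ _
      rw [aff_coe, hf, ← linP_eval]
      show aff g (sph _ _) = _
      rw [aff_sph]
      simp [eval_comp]

lemma cj_mem {d : ℕ} (hd : 1 ≤ d) (g : ℝ × ℂ) {f : C(OnePoint ℂ, OnePoint ℂ)}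
    (h : f ∈ RatMap d) : cj g f ∈ RatMap d := by
  rw [mem_ratMap_iff hd] at h ⊢
  obtain ⟨P, Q, h⟩ := h
  exact ⟨_, _, rep_cj g h⟩

lemma cj_iterate (g : ℝ × ℂ) (f : C(OnePoint ℂ, OnePoint ℂ)) (n : ℕ) (z : OnePoint ℂ) :
    (cj g f)^[n] (aff g z) = aff g (f^[n] z) := by
  induction n generalizing z with
  | zero => rfl
  | succ n ih =>
    rw [Function.iterate_succ_apply, Function.iterate_succ_apply, cj_apply, aff_iv_aff, ih]

lemma isOpen_fatou (f : C(OnePoint ℂ, OnePoint ℂ)) : IsOpen (fatou f) := by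
  rw [isOpen_iff_mem_nhds]
  rintro z ⟨U, hU, hz, hK⟩
  exact Filter.mem_of_superset (hU.mem_nhds hz) fun w hw => ⟨U, hU, hw, hK⟩

lemma fatou_cj_mem (g : ℝ × ℂ) (f : C(OnePoint ℂ, OnePoint ℂ)) {z : OnePoint ℂ}
    (hz : z ∈ fatou f) : aff g z ∈ fatou (cj g f) := by
  obtain ⟨U, hU, hzU, hK⟩ := hz
  refine ⟨affH g '' U, (affH g).isOpenMap U hU, ⟨z, hzU, rfl⟩, ?_⟩
  let k : C(affH g '' U, U) :=
    ⟨fun w => ⟨aff (iv g) w.1, by
      obtain ⟨x, hx, hw⟩ := w.2
      rw [← hw, affH_apply, aff_iv_aff]; exact hx⟩, by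
      apply Continuous.subtype_mk
      exact (affC (iv g)).continuous.comp continuous_subtype_val⟩
  let T : C(U, OnePoint ℂ) → C(affH g '' U, OnePoint ℂ) := fun q => (affC g).comp (q.comp k)
  have hT : Continuous T :=
    (ContinuousMap.continuous_postcomp _).comp (ContinuousMap.continuous_precomp _)
  have h1 : IsCompact (T '' closure {q : C(U, OnePoint ℂ) | ∃ n : ℕ, ∀ w : U, q w = f^[n] w}) :=
    hK.image hT
  refine h1.of_isClosed_subset isClosed_closure ?_
  refine closure_minimal ?_ h1.isClosed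
  rintro q ⟨n, hq⟩
  have hfU : ∀ n : ℕ, Continuous (f^[n]) := fun n => f.continuous.iterate n
  refine ⟨⟨fun w : U => f^[n] w.1, (hfU n).comp continuous_subtype_val⟩,
    subset_closure ⟨n, fun w => rfl⟩, ?_⟩
  ext w
  rw [hq w]
  obtain ⟨x, hx, hw⟩ := w.2
  show aff g (f^[n] (aff (iv g) w.1)) = _
  rw [← cj_iterate, aff_aff_iv]

lemma fatou_cj (g : ℝ × ℂ) (f : C(OnePoint ℂ, OnePoint ℂ)) :
    fatou (cj g f) = affH g '' fatou f := by
  apply Set.Subset.antisymm
  · intro z hz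
    have h1 := fatou_cj_mem (iv g) (cj g f) hz
    rw [← cj_mu, iv_mu, cj_zero] at h1
    exact ⟨aff (iv g) z, h1, aff_aff_iv g z⟩
  · rintro _ ⟨z, hz, rfl⟩
    exact fatou_cj_mem g f hz

lemma holAt_aff (g : ℝ × ℂ) {φ : ℂ → OnePoint ℂ} {z₀ : ℂ} (h : HolAt φ z₀) :
    HolAt (fun z => aff g (φ z)) z₀ := by
  obtain ⟨q, hq, h1 | h1⟩ := h
  · refine ⟨fun z => (Real.exp g.1 : ℂ) * q z + g.2, by fun_prop, Or.inl ?_⟩
    filter_upwards [h1] with z hz
    rw [hz]; rfl
  · by_cases h0 : q z₀ = 0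
    · refine ⟨fun z => q z / ((Real.exp g.1 : ℂ) + g.2 * q z), ?_, Or.inr ?_⟩
      · refine hq.div (by fun_prop) ?_
        rw [h0, mul_zero, add_zero]
        exact_mod_cast (Real.exp_pos _).ne'
      · have h2 : ∀ᶠ z in 𝓝 z₀, (Real.exp g.1 : ℂ) + g.2 * q z ≠ 0 := by
          have hc : ContinuousAt (fun z => (Real.exp g.1 : ℂ) + g.2 * q z) z₀ := by
            have := hq.continuousAt
            fun_prop
          apply hc.eventually_ne
          rw [h0, mul_zero, add_zero]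
          exact_mod_cast (Real.exp_pos _).ne'
        filter_upwards [h1, h2] with z hz hz2
        show aff g (φ z) = _
        rw [hz, aff_sph, ← sph_mul ((Real.exp g.1 : ℂ) + g.2 * q z)⁻¹ _ _ (inv_ne_zero hz2)]
        congr 1
        · field_simp
        · field_simp
    · refine ⟨fun z => (Real.exp g.1 : ℂ) * (1 / q z) + g.2, ?_, Or.inl ?_⟩
      · have := analyticAt_const (𝕜 := ℂ) (v := (1 : ℂ)) (x := z₀) |>.div hq h0
        fun_prop
      · have h2 : ∀ᶠ z in 𝓝 z₀, q z ≠ 0 := hq.continuousAt.eventually_ne h0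
        filter_upwards [h1, h2] with z hz hz2
        rw [hz]
        simp only [sph, hz2, if_false]
        rfl

lemma isHermanRing_cj (g : ℝ × ℂ) {f : C(OnePoint ℂ, OnePoint ℂ)} {α : ℝ}
    {A : Set (OnePoint ℂ)} (h : IsHermanRing f α A) :
    IsHermanRing (cj g f) α (affH g '' A) := by
  obtain ⟨⟨x, hx, hA⟩, hfA, r, hr, φ, h1, h2, h3, h4⟩ := h
  refine ⟨⟨aff g x, fatou_cj_mem g f hx, ?_⟩, ?_, r, hr, fun z => aff g (φ z), ?_, ?_, ?_, ?_⟩
  · rw [fatou_cj, hA]
    exact (affH g).image_connectedComponentIn hx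
  · apply Set.Subset.antisymm
    · rintro _ ⟨_, ⟨y, hy, rfl⟩, rfl⟩
      refine ⟨f y, ?_, ?_⟩
      · rw [← hfA]; exact ⟨y, hy, rfl⟩
      · simp [aff_iv_aff]
    · rintro _ ⟨y, hy, rfl⟩
      rw [← hfA] at hy
      obtain ⟨x', hx', rfl⟩ := hy
      exact ⟨aff g x', ⟨x', hx', rfl⟩, by simp [aff_iv_aff]⟩
  · intro z hz
    exact holAt_aff g (h1 z hz)
  · intro z hz w hw hzw
    exact h2 hz hw ((affH g).injective hzw)
  · rw [← h3, Set.image_image]; rfl
  · intro z hz
    simp only [cj_apply, aff_iv_aff, h4 z hz]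

instance : LocallyConnectedSpace (OnePoint ℂ) := by
  have e : OnePoint ℂ ≃ₜ Metric.sphere (0 : EuclideanSpace ℝ (Fin 3)) 1 :=
    onePointEquivSphereOfFinrankEq (by simp)
  haveI : Fact (Module.finrank ℝ (EuclideanSpace ℝ (Fin 3)) = 2 + 1) := ⟨by simp⟩
  haveI : LocallyConnectedSpace (Metric.sphere (0 : EuclideanSpace ℝ (Fin 3)) 1) :=
    ChartedSpace.locallyConnectedSpace (EuclideanSpace ℝ (Fin 2)) _
  exact e.isOpenEmbedding.locallyConnectedSpace

lemma IsHermanRing.isOpen {f : C(OnePoint ℂ, OnePoint ℂ)} {α : ℝ}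
    {A : Set (OnePoint ℂ)} (h : IsHermanRing f α A) : IsOpen A := by
  obtain ⟨⟨x, hx, hA⟩, -⟩ := h
  rw [hA]
  exact (isOpen_fatou f).connectedComponentIn

lemma kernelContAt_aff {A : unitInterval → Set (OnePoint ℂ)} {t₀ : unitInterval}
    (hO : IsOpen (A t₀)) (h : KernelContAt A t₀) {g : unitInterval → ℝ × ℂ} (hg : Continuous g) :
    KernelContAt (fun t => affH (g t) '' A t) t₀ := by
  obtain ⟨h1, h2⟩ := h
  constructor
  · intro K hK hKA
    have hK0 : IsCompact (affH (iv (g t₀)) '' K) := hK.image (affH (iv (g t₀))).continuous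
    have hsub : affH (iv (g t₀)) '' K ⊆ A t₀ := by
      rintro _ ⟨z, hz, rfl⟩
      obtain ⟨x, hx, hxz⟩ := hKA hz
      rw [← hxz, affH_apply, affH_apply, aff_iv_aff]; exact hx
    obtain ⟨K1, hK1, hK01, hK1A⟩ := exists_compact_between hK0 hO hsub
    have h3 : ∀ᶠ t in 𝓝 t₀, ∀ z ∈ K, aff (iv (g t)) z ∈ interior K1 := by
      apply hK.eventually_forall_of_forall_eventually
      intro z hz
      have hc : Continuous fun p : unitInterval × OnePoint ℂ => aff (iv (g p.1)) p.2 :=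
        continuous_aff.comp (((continuous_iv.comp hg).comp continuous_fst).prodMk continuous_snd)
      exact hc.continuousAt.eventually_mem
        (isOpen_interior.mem_nhds (hK01 ⟨z, hz, rfl⟩))
    filter_upwards [h3, h1 K1 hK1 hK1A] with t ht ht' z hz
    exact ⟨aff (iv (g t)) z, ht' (interior_subset (ht z hz)), aff_aff_iv _ _⟩
  · intro w hw V hV
    rw [← (affH (g t₀)).image_frontier] at hw
    obtain ⟨w0, hw0, rfl⟩ := hw
    have hc : Continuous fun p : unitInterval × OnePoint ℂ => aff (g p.1) p.2 :=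
      continuous_aff.comp ((hg.comp continuous_fst).prodMk continuous_snd)
    have h3 : ∀ᶠ p in 𝓝 (t₀, w0), aff (g p.1) p.2 ∈ V :=
      hc.continuousAt.eventually_mem hV
    rw [nhds_prod_eq, Filter.eventually_prod_iff] at h3
    obtain ⟨p1, hp1, p2, hp2, hp⟩ := h3
    filter_upwards [hp1, h2 w0 hw0 {z | p2 z} hp2] with t ht ht'
    obtain ⟨z, hz, hz'⟩ := ht'
    refine ⟨aff (g t) z, hp ht hz, ?_⟩
    rw [← (affH (g t)).image_frontier]
    exact ⟨z, hz', rfl⟩

/-- The action on the space of rational maps. -/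
def act {d : ℕ} (hd : 1 ≤ d) (g : ℝ × ℂ) (f : RatMap d) : RatMap d := ⟨cj g f, cj_mem hd g f.2⟩

lemma continuous_act {d : ℕ} (hd : 1 ≤ d) :
    Continuous fun p : (ℝ × ℂ) × RatMap d => act hd p.1 p.2 := by
  apply Continuous.subtype_mk
  exact continuous_cj.comp (continuous_fst.prodMk (continuous_subtype_val.comp continuous_snd))

lemma act_mu {d : ℕ} (hd : 1 ≤ d) (g h : ℝ × ℂ) (f : RatMap d) :
    act hd (mu g h) f = act hd g (act hd h f) := Subtype.ext (cj_mu g h f)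

lemma act_zero {d : ℕ} (hd : 1 ≤ d) (f : RatMap d) : act hd 0 f = f := Subtype.ext (cj_zero f)

lemma act_mem_hermanClass {d : ℕ} (hd : 1 ≤ d) {α : ℝ} {f₀ : RatMap d} {A₀ : Set (OnePoint ℂ)}
    (g : ℝ × ℂ) {f : RatMap d} (h : f ∈ hermanClass d α f₀ A₀) :
    act hd g f ∈ hermanClass d α f₀ A₀ := by
  obtain ⟨γ, A, h0, hA0, h1, hH, hK⟩ := h
  let q : unitInterval → ℝ × ℂ := fun t => ((t : ℝ) * g.1, ((t : ℝ) : ℂ) * g.2)
  have hq : Continuous q := by
    unfold q; fun_prop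
  have hq0 : q 0 = 0 := by ext <;> simp [q]
  have hq1 : q 1 = g := by ext <;> simp [q]
  refine ⟨⟨fun t => act hd (q t) (γ t), (continuous_act hd).comp (hq.prodMk γ.continuous)⟩,
    fun t => affH (q t) '' A t, ?_, ?_, ?_, ?_, ?_⟩
  · show act hd (q 0) (γ 0) = f₀
    rw [hq0, act_zero, h0]
  · show affH (q 0) '' A 0 = A₀
    rw [hq0, hA0]
    ext z
    constructor
    · rintro ⟨y, hy, rfl⟩; simpa using hy
    · intro hz; exact ⟨z, hz, by simp⟩
  · show act hd (q 1) (γ 1) = act hd g f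
    rw [hq1, h1]
  · intro t
    exact isHermanRing_cj (q t) (hH t)
  · intro t
    exact kernelContAt_aff (hH t).isOpen (hK t) hq

/-- The action as a homeomorphism. -/
def actH {d : ℕ} (hd : 1 ≤ d) (g : ℝ × ℂ) : RatMap d ≃ₜ RatMap d where
  toFun := act hd g
  invFun := act hd (iv g)
  left_inv f := by rw [← act_mu, iv_mu, act_zero]
  right_inv f := by rw [← act_mu, mu_iv, act_zero]
  continuous_toFun := (continuous_act hd).comp (Continuous.prodMk_right g)
  continuous_invFun := (continuous_act hd).comp (Continuous.prodMk_right (iv g))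

lemma relBoundary_homeo {X : Type*} [TopologicalSpace X] (e : X ≃ₜ X) {H : Set X}
    (he : e '' H = H) {x : X} (hx : x ∈ relBoundary H) : e x ∈ relBoundary H := by
  obtain ⟨h1, h2⟩ := hx
  have hc : e '' closure H = closure H := by rw [e.image_closure, he]
  refine ⟨hc ▸ ⟨x, h1, rfl⟩, fun h3 => h2 ?_⟩
  rw [← hc, ← e.isEmbedding.map_nhdsWithin_eq, mem_map] at h3
  have : e ⁻¹' H = H := by
    conv_lhs => rw [← he]
    exact e.injective.preimage_image H
  rwa [this] at h3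

lemma act_mem_relBoundary {d : ℕ} (hd : 1 ≤ d) {α : ℝ} {f₀ : RatMap d} {A₀ : Set (OnePoint ℂ)}
    (g : ℝ × ℂ) {f : RatMap d} (h : f ∈ relBoundary (hermanClass d α f₀ A₀)) :
    act hd g f ∈ relBoundary (hermanClass d α f₀ A₀) := by
  refine relBoundary_homeo (actH hd g) ?_ h
  apply Set.Subset.antisymm
  · rintro _ ⟨y, hy, rfl⟩
    exact act_mem_hermanClass hd g hy
  · intro y hy
    refine ⟨act hd (iv g) y, act_mem_hermanClass hd _ hy, ?_⟩
    show act hd g (act hd (iv g) y) = y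
    rw [← act_mu, mu_iv, act_zero]

end

end Pool.Agent.Lib.HermanClass
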