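import Pool.Agent.Lib.MP_9a5726_an.Inv

/-!
# The weight of a pair of polynomials on the group of maps `z ↦ e^s z + b`
-/

open Topology Polynomial OnePoint Filter MeasureTheory

namespace Pool.Agent.Lib.HermanClass

noncomputable section

/-- `e^s + e^{-s} (1 + |b|^2)`. -/
def XX (g : ℝ × ℂ) : ℝ := Real.exp g.1 + Real.exp (-g.1) * (1 + ‖g.2‖ ^ 2)

lemma XX_pos (g : ℝ × ℂ) : 0 < XX g := by unfold XX; positivity

/-- The basic elementary inequality. -/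
lemma ineq (p q b : ℂ) (s : ℝ) :
    Real.exp s * (‖p‖ ^ 2 + ‖q‖ ^ 2)
      ≤ XX (s, b) * (‖p - b * q‖ ^ 2 + Real.exp (2 * s) * ‖q‖ ^ 2) := by
  set E := Real.exp s with hE
  have hEp : 0 < E := Real.exp_pos _
  have h1 : Real.exp (-s) = E⁻¹ := by rw [Real.exp_neg]
  have h2 : Real.exp (2 * s) = E ^ 2 := by rw [two_mul, Real.exp_add]; ring
  have h3 : ‖p‖ ≤ ‖p - b * q‖ + ‖b‖ * ‖q‖ := by
    calc ‖p‖ = ‖(p - b * q) + b * q‖ := by ring_nf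
      _ ≤ _ := (norm_add_le _ _).trans (by rw [norm_mul])
  unfold XX
  simp only
  rw [h1, h2]
  set A := ‖p - b * q‖
  set B := ‖q‖
  set β := ‖b‖
  have hA : 0 ≤ A := norm_nonneg _
  have hB : 0 ≤ B := norm_nonneg _
  have hβ : 0 ≤ β := norm_nonneg _
  have h4 : ‖p‖ ^ 2 ≤ (A + β * B) ^ 2 := pow_le_pow_left₀ (norm_nonneg _) h3 2
  have h5 : (E + E⁻¹ * (1 + β ^ 2)) * (A ^ 2 + E ^ 2 * B ^ 2)
      = E * (A ^ 2 + E ^ 2 * B ^ 2) + E⁻¹ * (1 + β ^ 2) * A ^ 2 + E * (1 + β ^ 2) * B ^ 2 := by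
    field_simp
    ring
  rw [h5]
  have h6 : 0 ≤ E⁻¹ * (E * (E * B) - β * A) ^ 2 := by positivity
  have h7 : E⁻¹ * (E * (E * B) - β * A) ^ 2
      = E ^ 3 * B ^ 2 - 2 * E * β * A * B + E⁻¹ * β ^ 2 * A ^ 2 := by
    field_simp
    ring
  have h8 : 0 ≤ E⁻¹ * A ^ 2 := by positivity
  nlinarith [mul_le_mul_of_nonneg_left h4 hEp.le]

/-- The weight function. -/
def nu (d : ℕ) (P Q : ℂ[X]) (g : ℝ × ℂ) : ℝ :=
  Real.exp (((d : ℝ) - 1) * g.1) * (‖P.coeff d - g.2 * Q.coeff d‖ ^ 2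
      + Real.exp (2 * g.1) * ‖Q.coeff d‖ ^ 2)
    + Real.exp (-((d : ℝ) + 1) * g.1) * (‖P.eval g.2 - g.2 * Q.eval g.2‖ ^ 2
      + Real.exp (2 * g.1) * ‖Q.eval g.2‖ ^ 2)

/-- Quantitative nondegeneracy. -/
def Good (d : ℕ) (m : ℝ) (P Q : ℂ[X]) : Prop :=
  m ≤ ‖P.coeff d‖ ^ 2 + ‖Q.coeff d‖ ^ 2 ∧
    ∀ z : ℂ, m * (1 + ‖z‖ ^ 2) ^ d ≤ ‖P.eval z‖ ^ 2 + ‖Q.eval z‖ ^ 2

lemma nu_lower {d : ℕ} {m : ℝ} (hm : 0 < m) {P Q : ℂ[X]} (h : Good d m P Q) (g : ℝ × ℂ) :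
    m * XX g ^ d ≤ 2 ^ (d - 1) * (XX g * nu d P Q g) := by
  obtain ⟨s, b⟩ := g
  obtain ⟨h1, h2⟩ := h
  have i1 := ineq (P.coeff d) (Q.coeff d) b s
  have i2 := ineq (P.eval b) (Q.eval b) b s
  set X1 := XX (s, b) with hX
  have e1 : Real.exp (((d : ℝ) - 1) * s) * Real.exp s = Real.exp s ^ d := by
    rw [← Real.exp_add, ← Real.exp_nat_mul]; congr 1; ring
  have e2 : Real.exp (-((d : ℝ) + 1) * s) * Real.exp s = Real.exp (-s) ^ d := by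
    rw [← Real.exp_add, ← Real.exp_nat_mul]; congr 1; ring
  have j1 : m * Real.exp s ^ d ≤ X1 * (Real.exp (((d : ℝ) - 1) * s) *
      (‖P.coeff d - b * Q.coeff d‖ ^ 2 + Real.exp (2 * s) * ‖Q.coeff d‖ ^ 2)) := by
    calc m * Real.exp s ^ d ≤ (‖P.coeff d‖ ^ 2 + ‖Q.coeff d‖ ^ 2) * Real.exp s ^ d :=
          mul_le_mul_of_nonneg_right h1 (by positivity)
      _ = Real.exp (((d : ℝ) - 1) * s) * (Real.exp s * (‖P.coeff d‖ ^ 2 + ‖Q.coeff d‖ ^ 2)) := by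
          rw [← e1]; ring
      _ ≤ Real.exp (((d : ℝ) - 1) * s) * (X1 * (‖P.coeff d - b * Q.coeff d‖ ^ 2
            + Real.exp (2 * s) * ‖Q.coeff d‖ ^ 2)) :=
          mul_le_mul_of_nonneg_left i1 (Real.exp_pos _).le
      _ = _ := by ring
  have j2 : m * (Real.exp (-s) * (1 + ‖b‖ ^ 2)) ^ d ≤ X1 * (Real.exp (-((d : ℝ) + 1) * s) *
      (‖P.eval b - b * Q.eval b‖ ^ 2 + Real.exp (2 * s) * ‖Q.eval b‖ ^ 2)) := by
    calc m * (Real.exp (-s) * (1 + ‖b‖ ^ 2)) ^ d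
        = (m * (1 + ‖b‖ ^ 2) ^ d) * Real.exp (-s) ^ d := by rw [mul_pow]; ring
      _ ≤ (‖P.eval b‖ ^ 2 + ‖Q.eval b‖ ^ 2) * Real.exp (-s) ^ d :=
          mul_le_mul_of_nonneg_right (h2 b) (by positivity)
      _ = Real.exp (-((d : ℝ) + 1) * s) * (Real.exp s * (‖P.eval b‖ ^ 2 + ‖Q.eval b‖ ^ 2)) := by
          rw [← e2]; ring
      _ ≤ Real.exp (-((d : ℝ) + 1) * s) * (X1 * (‖P.eval b - b * Q.eval b‖ ^ 2
            + Real.exp (2 * s) * ‖Q.eval b‖ ^ 2)) :=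
          mul_le_mul_of_nonneg_left i2 (Real.exp_pos _).le
      _ = _ := by ring
  have k1 : X1 ^ d ≤ 2 ^ (d - 1) * (Real.exp s ^ d
      + (Real.exp (-s) * (1 + ‖b‖ ^ 2)) ^ d) := by
    rw [hX]; unfold XX
    exact add_pow_le (Real.exp_pos _).le (by positivity) d
  calc m * X1 ^ d ≤ m * (2 ^ (d - 1) * (Real.exp s ^ d
      + (Real.exp (-s) * (1 + ‖b‖ ^ 2)) ^ d)) := mul_le_mul_of_nonneg_left k1 hm.le
    _ = 2 ^ (d - 1) * (m * Real.exp s ^ d + m * (Real.exp (-s) * (1 + ‖b‖ ^ 2)) ^ d) := by ring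
    _ ≤ 2 ^ (d - 1) * (X1 * nu d P Q (s, b)) := by
        apply mul_le_mul_of_nonneg_left _ (by positivity)
        unfold nu
        simp only
        linarith

lemma two_le_XX (g : ℝ × ℂ) : 2 ≤ XX g := by
  unfold XX
  set E := Real.exp g.1 with hE
  have hEp : 0 < E := Real.exp_pos _
  have h1 : Real.exp (-g.1) = E⁻¹ := by rw [Real.exp_neg]
  rw [h1]
  have h2 : E + E⁻¹ * (1 + ‖g.2‖ ^ 2) = E⁻¹ * ((E - 1) ^ 2 + ‖g.2‖ ^ 2) + 2 := by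
    field_simp; ring
  rw [h2]
  have : 0 ≤ E⁻¹ * ((E - 1) ^ 2 + ‖g.2‖ ^ 2) := by positivity
  linarith

lemma nu_lower' {d : ℕ} (hd : 2 ≤ d) {m : ℝ} (hm : 0 < m) {P Q : ℂ[X]} (h : Good d m P Q)
    (g : ℝ × ℂ) : m / 2 ^ (d - 1) * XX g ≤ nu d P Q g := by
  have h1 := nu_lower hm h g
  have hX := XX_pos g
  have hX2 := two_le_XX g
  obtain ⟨e, rfl⟩ : ∃ e, d = e + 2 := ⟨d - 2, by omega⟩
  have h2 : XX g ^ 2 ≤ XX g ^ (e + 2) := pow_le_pow_right₀ (by linarith) (by omega)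
  have h3 : m * XX g ^ 2 ≤ 2 ^ (e + 2 - 1) * (XX g * nu (e + 2) P Q g) :=
    (mul_le_mul_of_nonneg_left h2 hm.le).trans h1
  have h4 : XX g * (m * XX g) ≤ XX g * (2 ^ (e + 2 - 1) * nu (e + 2) P Q g) := by
    calc XX g * (m * XX g) = m * XX g ^ 2 := by ring
      _ ≤ _ := h3
      _ = _ := by ring
  have h5 := le_of_mul_le_mul_left h4 hX
  rw [div_mul_eq_mul_div, div_le_iff₀ (by positivity)]
  linarith

lemma nu_pos {d : ℕ} (hd : 2 ≤ d) {m : ℝ} (hm : 0 < m) {P Q : ℂ[X]} (h : Good d m P Q)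
    (g : ℝ × ℂ) : 0 < nu d P Q g :=
  lt_of_lt_of_le (mul_pos (by positivity) (XX_pos g)) (nu_lower' hd hm h g)

/-- The density. -/
def ww (d : ℕ) (P Q : ℂ[X]) (g : ℝ × ℂ) : ℝ := (nu d P Q g ^ 16)⁻¹ * Real.exp (-2 * g.1)

/-- The dominating function. -/
def dom (g : ℝ × ℂ) : ℝ := (1 + |g.1|) * (1 + ‖g.2‖) * ((XX g ^ 16)⁻¹ * Real.exp (-2 * g.1))

lemma continuous_XX : Continuous XX := by unfold XX; fun_prop

lemma continuous_nu (d : ℕ) (P Q : ℂ[X]) : Continuous (nu d P Q) := by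
  unfold nu
  have h1 : Continuous fun g : ℝ × ℂ => P.eval g.2 := P.continuous.comp continuous_snd
  have h2 : Continuous fun g : ℝ × ℂ => Q.eval g.2 := Q.continuous.comp continuous_snd
  fun_prop

lemma ww_nonneg (d : ℕ) (P Q : ℂ[X]) (g : ℝ × ℂ) : 0 ≤ ww d P Q g := by
  unfold ww
  have : Even 16 := by decide
  have := this.pow_nonneg (nu d P Q g)
  positivity

lemma ww_le {d : ℕ} (hd : 2 ≤ d) {m : ℝ} (hm : 0 < m) {P Q : ℂ[X]} (h : Good d m P Q)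
    (g : ℝ × ℂ) : ww d P Q g
      ≤ ((m / 2 ^ (d - 1)) ^ 16)⁻¹ * ((XX g ^ 16)⁻¹ * Real.exp (-2 * g.1)) := by
  unfold ww
  rw [← mul_assoc, ← mul_inv, ← mul_pow]
  apply mul_le_mul_of_nonneg_right _ (Real.exp_pos _).le
  have hX := XX_pos g
  have h0 : 0 < m / 2 ^ (d - 1) * XX g := by positivity
  apply inv_anti₀ (by positivity)
  exact pow_le_pow_left₀ h0.le (nu_lower' hd hm h g) 16

lemma integrable_dom : Integrable dom := by
  have h1 : Integrable (fun s : ℝ => (1 + s ^ 2)⁻¹) := integrable_inv_one_add_sq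
  have h2 : Integrable (fun b : ℂ => (1 + ‖b‖ ^ 2) ^ (-(6 : ℝ) / 2)) :=
    integrable_rpow_neg_one_add_norm_sq (by rw [Complex.finrank_real_complex]; norm_num)
  have h3 : Integrable (fun g : ℝ × ℂ => (1 + g.1 ^ 2)⁻¹ * (2 * (1 + ‖g.2‖ ^ 2) ^ (-(6 : ℝ) / 2)))
      (volume.prod volume) := h1.mul_prod (h2.const_mul 2)
  refine Integrable.mono' h3 ?_ ?_
  · apply Continuous.aestronglyMeasurable
    unfold dom
    have := continuous_XX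
    refine Continuous.mul (by fun_prop) (Continuous.mul (Continuous.inv₀ (by fun_prop) ?_)
      (by fun_prop))
    intro g
    exact pow_ne_zero _ (XX_pos g).ne'
  · refine Filter.Eventually.of_forall fun g => ?_
    obtain ⟨s, b⟩ := g
    have hX := XX_pos (s, b)
    rw [Real.norm_eq_abs, abs_of_nonneg (by unfold dom; positivity)]
    unfold dom
    simp only
    have hY : (0 : ℝ) < 1 + ‖b‖ ^ 2 := by positivity
    have e1 : ((1 + ‖b‖ ^ 2) ^ (-(6 : ℝ) / 2) : ℝ) = ((1 + ‖b‖ ^ 2) ^ 3)⁻¹ := by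
      rw [show (-(6 : ℝ) / 2) = -((3 : ℕ) : ℝ) by norm_num, Real.rpow_neg hY.le,
        Real.rpow_natCast]
    rw [e1]
    set E := Real.exp |s| with hE
    have hEp : 0 < E := Real.exp_pos _
    have hE1 : 1 + |s| ≤ E := by
      have := Real.add_one_le_exp |s|
      linarith
    have hXE : E ≤ XX (s, b) := by
      unfold XX
      simp only
      rcases abs_cases s with ⟨h, _⟩ | ⟨h, _⟩
      · rw [hE, h]
        have : 0 ≤ Real.exp (-s) * (1 + ‖b‖ ^ 2) := by positivity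
        linarith
      · rw [hE, h]
        have h5 : Real.exp (-s) * 1 ≤ Real.exp (-s) * (1 + ‖b‖ ^ 2) :=
          mul_le_mul_of_nonneg_left (by nlinarith [sq_nonneg ‖b‖]) (Real.exp_pos _).le
        have : 0 < Real.exp s := Real.exp_pos _
        linarith
    have hXY : 1 + ‖b‖ ^ 2 ≤ XX (s, b) ^ 2 := by
      unfold XX
      simp only
      set F := Real.exp s
      have hF : 0 < F := Real.exp_pos _
      have h1 : Real.exp (-s) = F⁻¹ := by rw [Real.exp_neg]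
      rw [h1]
      have h6 : (F + F⁻¹ * (1 + ‖b‖ ^ 2)) ^ 2
          = F ^ 2 + 2 * (1 + ‖b‖ ^ 2) + (F⁻¹ * (1 + ‖b‖ ^ 2)) ^ 2 := by
        field_simp
        ring
      rw [h6]
      have : 0 ≤ (F⁻¹ * (1 + ‖b‖ ^ 2)) ^ 2 := by positivity
      nlinarith [sq_nonneg F, sq_nonneg ‖b‖]
    have h16 : E ^ 8 * (1 + ‖b‖ ^ 2) ^ 4 ≤ XX (s, b) ^ 16 := by
      calc E ^ 8 * (1 + ‖b‖ ^ 2) ^ 4 ≤ XX (s, b) ^ 8 * (XX (s, b) ^ 2) ^ 4 := by
            apply mul_le_mul (pow_le_pow_left₀ hEp.le hXE 8)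
              (pow_le_pow_left₀ hY.le hXY 4) (by positivity) (by positivity)
        _ = XX (s, b) ^ 16 := by ring
    have hinv : (XX (s, b) ^ 16)⁻¹ ≤ (E ^ 8)⁻¹ * ((1 + ‖b‖ ^ 2) ^ 4)⁻¹ := by
      rw [← mul_inv]
      exact inv_anti₀ (by positivity) h16
    have hexp : Real.exp (-2 * s) ≤ E ^ 2 := by
      rw [hE, ← Real.exp_nat_mul]
      apply Real.exp_le_exp.mpr
      have := neg_abs_le s
      push_cast
      linarith
    have hb : 1 + ‖b‖ ≤ 2 * (1 + ‖b‖ ^ 2) := by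
      nlinarith [sq_nonneg (‖b‖ - 1), norm_nonneg b, sq_nonneg ‖b‖]
    have hs2 : 1 + s ^ 2 ≤ E ^ 5 := by
      have h7 : (1 + |s|) ^ 5 ≤ E ^ 5 := pow_le_pow_left₀ (by positivity) hE1 5
      have h8 : (1 + |s|) ^ 2 ≤ (1 + |s|) ^ 5 :=
        pow_le_pow_right₀ (by linarith [abs_nonneg s]) (by norm_num)
      have h9 : 1 + s ^ 2 ≤ (1 + |s|) ^ 2 := by
        have := sq_abs s
        nlinarith [abs_nonneg s]
      linarith
    calc (1 + |s|) * (1 + ‖b‖) * ((XX (s, b) ^ 16)⁻¹ * Real.exp (-2 * s))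
        ≤ E * (2 * (1 + ‖b‖ ^ 2)) * (((E ^ 8)⁻¹ * ((1 + ‖b‖ ^ 2) ^ 4)⁻¹) * E ^ 2) := by
          gcongr
      _ = (E ^ 5)⁻¹ * (2 * ((1 + ‖b‖ ^ 2) ^ 3)⁻¹) := by
          field_simp
      _ ≤ (1 + s ^ 2)⁻¹ * (2 * ((1 + ‖b‖ ^ 2) ^ 3)⁻¹) := by
          apply mul_le_mul_of_nonneg_right _ (by positivity)
          exact inv_anti₀ (by positivity) hs2

end

end Pool.Agent.Lib.HermanClass
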