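import Pool.Agent.Lib.MP_9a5726_an.Center

/-!
# A continuous equivariant map from the space of rational maps to the group
-/

open Topology Polynomial OnePoint Filter MeasureTheory

namespace Pool.Agent.Lib.HermanClass

noncomputable section

/-- The pair of polynomials of the conjugate map. -/
def cjP (h : ℝ × ℂ) (P Q : ℂ[X]) : ℂ[X] :=
  C (Real.exp h.1 : ℂ) * P.comp (linP h) + C h.2 * Q.comp (linP h)

/-- The pair of polynomials of the conjugate map. -/
def cjQ (h : ℝ × ℂ) (Q : ℂ[X]) : ℂ[X] := Q.comp (linP h)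

lemma mu_iv_apply (h g : ℝ × ℂ) :
    mu (iv h) g = (g.1 - h.1, (Real.exp (-h.1) : ℂ) * (g.2 - h.2)) := by
  ext
  · simp [mu, iv]; ring
  · simp only [mu, iv]; ring

lemma nu_cj {d : ℕ} {P Q : ℂ[X]} (hP : P.natDegree ≤ d) (hQ : Q.natDegree ≤ d) (h g : ℝ × ℂ) :
    nu d (cjP h P Q) (cjQ h Q) g
      = Real.exp (-((d : ℝ) - 1) * h.1) * nu d P Q (mu (iv h) g) := by
  have hE : ((Real.exp (-h.1) : ℝ) : ℂ) ≠ 0 := by exact_mod_cast (Real.exp_pos _).ne'
  have c1 : (P.comp (linP h)).coeff d = ((Real.exp (-h.1) : ℝ) : ℂ) ^ d * P.coeff d :=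
    coeff_comp_lin P hP _ _ hE
  have c2 : (Q.comp (linP h)).coeff d = ((Real.exp (-h.1) : ℝ) : ℂ) ^ d * Q.coeff d :=
    coeff_comp_lin Q hQ _ _ hE
  obtain ⟨s, b⟩ := g
  obtain ⟨t, c⟩ := h
  set b' : ℂ := (Real.exp (-t) : ℂ) * (b - c) with hb'
  have hE2 : (Real.exp t : ℂ) * (Real.exp (-t) : ℂ) = 1 := exp_mul_exp_neg t
  have hbc : b - c = (Real.exp t : ℂ) * b' := by
    rw [hb', ← mul_assoc, hE2, one_mul]
  have e1 : (linP (t, c)).eval b = b' := by
    rw [linP_eval]; simp only [iv]; rw [hb']; ring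
  have p1 : (cjP (t, c) P Q).coeff d - b * (cjQ (t, c) Q).coeff d
      = ((Real.exp (-t) : ℝ) : ℂ) ^ d * ((Real.exp t : ℂ) * (P.coeff d - b' * Q.coeff d)) := by
    unfold cjP cjQ
    rw [coeff_add, coeff_C_mul, coeff_C_mul, c1, c2]
    linear_combination (-(((Real.exp (-t) : ℝ) : ℂ) ^ d * Q.coeff d)) * hbc
  have p2 : (cjQ (t, c) Q).coeff d = ((Real.exp (-t) : ℝ) : ℂ) ^ d * Q.coeff d := c2
  have p3 : (cjP (t, c) P Q).eval b - b * (cjQ (t, c) Q).eval b
      = (Real.exp t : ℂ) * (P.eval b' - b' * Q.eval b') := by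
    unfold cjP cjQ
    rw [eval_add, eval_mul, eval_mul, eval_C, eval_C, eval_comp, eval_comp, e1]
    linear_combination (-(Q.eval b')) * hbc
  have p4 : (cjQ (t, c) Q).eval b = Q.eval b' := by
    unfold cjQ; rw [eval_comp, e1]
  have hn : ∀ u : ℝ, ‖((Real.exp u : ℝ) : ℂ)‖ = Real.exp u := fun u => by
    rw [Complex.norm_real, Real.norm_eq_abs, abs_of_pos (Real.exp_pos _)]
  unfold nu
  rw [mu_iv_apply]
  simp only
  rw [p1, p2, p3, p4, ← hb', norm_mul, norm_mul, norm_mul, norm_mul, norm_pow, hn, hn]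
  set U := ‖P.coeff d - b' * Q.coeff d‖
  set V := ‖Q.coeff d‖
  set W := ‖P.eval b' - b' * Q.eval b'‖
  set Z := ‖Q.eval b'‖
  have q1 : Real.exp (-t) ^ d = Real.exp (-(d : ℝ) * t) := by
    rw [← Real.exp_nat_mul]; congr 1; ring
  rw [q1]
  have r1 : Real.exp (((d : ℝ) - 1) * s) * (Real.exp (-(d : ℝ) * t) * (Real.exp t * U)) ^ 2
      = Real.exp (-((d : ℝ) - 1) * t) * (Real.exp (((d : ℝ) - 1) * (s - t)) * U ^ 2) := by
    have : Real.exp (((d : ℝ) - 1) * s) * (Real.exp (-(d : ℝ) * t) ^ 2 * Real.exp t ^ 2)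
      = Real.exp (-((d : ℝ) - 1) * t) * Real.exp (((d : ℝ) - 1) * (s - t)) := by
      rw [← Real.exp_nat_mul, ← Real.exp_nat_mul, ← Real.exp_add, ← Real.exp_add, ← Real.exp_add]
      congr 1; push_cast; ring
    linear_combination U ^ 2 * this
  have r2 : Real.exp (((d : ℝ) - 1) * s) * (Real.exp (2 * s) *
      (Real.exp (-(d : ℝ) * t) * V) ^ 2)
      = Real.exp (-((d : ℝ) - 1) * t) * (Real.exp (((d : ℝ) - 1) * (s - t)) *
        (Real.exp (2 * (s - t)) * V ^ 2)) := by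
    have : Real.exp (((d : ℝ) - 1) * s) * (Real.exp (2 * s) * Real.exp (-(d : ℝ) * t) ^ 2)
      = Real.exp (-((d : ℝ) - 1) * t) * (Real.exp (((d : ℝ) - 1) * (s - t)) *
        Real.exp (2 * (s - t))) := by
      rw [← Real.exp_nat_mul, ← Real.exp_add, ← Real.exp_add, ← Real.exp_add, ← Real.exp_add]
      congr 1; push_cast; ring
    linear_combination V ^ 2 * this
  have r3 : Real.exp (-((d : ℝ) + 1) * s) * (Real.exp t * W) ^ 2
      = Real.exp (-((d : ℝ) - 1) * t) * (Real.exp (-((d : ℝ) + 1) * (s - t)) * W ^ 2) := by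
    have : Real.exp (-((d : ℝ) + 1) * s) * Real.exp t ^ 2
      = Real.exp (-((d : ℝ) - 1) * t) * Real.exp (-((d : ℝ) + 1) * (s - t)) := by
      rw [← Real.exp_nat_mul, ← Real.exp_add, ← Real.exp_add]
      congr 1; push_cast; ring
    linear_combination W ^ 2 * this
  have r4 : Real.exp (-((d : ℝ) + 1) * s) * (Real.exp (2 * s) * Z ^ 2)
      = Real.exp (-((d : ℝ) - 1) * t) * (Real.exp (-((d : ℝ) + 1) * (s - t)) *
        (Real.exp (2 * (s - t)) * Z ^ 2)) := by
    have : Real.exp (-((d : ℝ) + 1) * s) * Real.exp (2 * s)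
      = Real.exp (-((d : ℝ) - 1) * t) * (Real.exp (-((d : ℝ) + 1) * (s - t)) *
        Real.exp (2 * (s - t))) := by
      rw [← Real.exp_add, ← Real.exp_add, ← Real.exp_add]
      congr 1; ring
    linear_combination Z ^ 2 * this
  linear_combination r1 + r2 + r3 + r4

lemma ww_cj {d : ℕ} {P Q : ℂ[X]} (hP : P.natDegree ≤ d) (hQ : Q.natDegree ≤ d) (h g : ℝ × ℂ) :
    ww d (cjP h P Q) (cjQ h Q) g
      = ((Real.exp (-((d : ℝ) - 1) * h.1) ^ 16)⁻¹ * Real.exp (-2 * h.1))
        * ww d P Q (mu (iv h) g) := by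
  unfold ww
  rw [nu_cj hP hQ, mul_pow, mul_inv]
  have : Real.exp (-2 * g.1) = Real.exp (-2 * h.1) * Real.exp (-2 * (mu (iv h) g).1) := by
    rw [← Real.exp_add, mu_iv_apply]; congr 1; simp only; ring
  rw [this]; ring

lemma cen_cj {d : ℕ} (hd : 2 ≤ d) {m : ℝ} (hm : 0 < m) {P Q : ℂ[X]} (hG : Good d m P Q)
    (hP : P.natDegree ≤ d) (hQ : Q.natDegree ≤ d) (h : ℝ × ℂ) :
    cen d (cjP h P Q) (cjQ h Q) = mu h (cen d P Q) := by
  set κ : ℝ := (Real.exp (-((d : ℝ) - 1) * h.1) ^ 16)⁻¹ with hκ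
  have hκp : 0 < κ := by positivity
  have key : ∀ {E : Type} [NormedAddCommGroup E] [NormedSpace ℝ E] (φ : ℝ × ℂ → E),
      ∫ g, ww d (cjP h P Q) (cjQ h Q) g • φ g = κ • ∫ g, ww d P Q g • φ (mu h g) := by
    intro E _ _ φ
    have h1 : ∀ g, ww d (cjP h P Q) (cjQ h Q) g • φ g
        = (κ * Real.exp (-2 * h.1)) •
          (fun g' => ww d P Q g' • φ (mu h g')) (mu (iv h) g) := by
      intro g
      simp only
      rw [ww_cj hP hQ, ← mu_assoc, mu_iv, zero_mu, mul_smul]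
    simp_rw [h1]
    rw [integral_smul, integral_mu (iv h) (fun g' => ww d P Q g' • φ (mu h g')), smul_smul]
    congr 1
    have : Real.exp (-2 * h.1) * Real.exp (-2 * (iv h).1) = 1 := by
      rw [← Real.exp_add]; simp [iv]
    rw [mul_assoc, this, mul_one]
  have i0 := int0 hd hm hG
  have i1 := int1 hd hm hG
  have i2 := int2 hd hm hG
  have hI0 := I0_pos hd hm hG
  have k0 : I0 d (cjP h P Q) (cjQ h Q) = κ * I0 d P Q := by
    have := key (E := ℝ) (fun _ => (1 : ℝ))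
    simpa [I0] using this
  have k1 : I1 d (cjP h P Q) (cjQ h Q) = κ * (h.1 * I0 d P Q + I1 d P Q) := by
    have h2 := key (E := ℝ) (fun g => g.1)
    have h3 : ∀ g : ℝ × ℂ, ww d P Q g • (mu h g).1 = h.1 * ww d P Q g + ww d P Q g * g.1 := by
      intro g; simp only [mu, smul_eq_mul]; ring
    simp_rw [h3] at h2
    rw [integral_add (i0.const_mul _) i1, integral_const_mul] at h2
    simpa [I1, I0] using h2
  have k2 : I2 d (cjP h P Q) (cjQ h Q)
      = κ • (I0 d P Q • h.2 + (Real.exp h.1 : ℂ) * I2 d P Q) := by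
    have h2 := key (E := ℂ) (fun g => g.2)
    have h3 : ∀ g : ℝ × ℂ, ww d P Q g • (mu h g).2
        = ww d P Q g • h.2 + (Real.exp h.1 : ℂ) * (ww d P Q g • g.2) := by
      intro g; simp only [mu, smul_add, Complex.real_smul]; ring
    simp_rw [h3] at h2
    rw [integral_add (i0.smul_const _) (i2.const_mul _), integral_smul_const,
      integral_const_mul] at h2
    exact h2
  unfold cen
  rw [k0, k1, k2]
  ext
  · simp only [mu]
    field_simp
  · simp only [mu, Complex.real_smul, Complex.ofReal_mul, Complex.ofReal_inv]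
    have h1 : (κ : ℂ) ≠ 0 := by exact_mod_cast hκp.ne'
    have h2 : (I0 d P Q : ℂ) ≠ 0 := by exact_mod_cast hI0.ne'
    field_simp

lemma nu_scale (d : ℕ) (P Q : ℂ[X]) (c : ℂ) (g : ℝ × ℂ) :
    nu d (C c * P) (C c * Q) g = ‖c‖ ^ 2 * nu d P Q g := by
  unfold nu
  simp only [coeff_C_mul, eval_mul, eval_C]
  have h1 : c * P.coeff d - g.2 * (c * Q.coeff d) = c * (P.coeff d - g.2 * Q.coeff d) := by ring
  have h2 : c * P.eval g.2 - g.2 * (c * Q.eval g.2) = c * (P.eval g.2 - g.2 * Q.eval g.2) := by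
    ring
  rw [h1, h2, norm_mul, norm_mul, norm_mul, norm_mul]
  ring

lemma cen_scale (d : ℕ) (P Q : ℂ[X]) (c : ℂ) (hc : c ≠ 0) :
    cen d (C c * P) (C c * Q) = cen d P Q := by
  set κ : ℝ := ((‖c‖ ^ 2) ^ 16)⁻¹ with hκ
  have hκp : κ ≠ 0 := by
    have : 0 < ‖c‖ := norm_pos_iff.mpr hc
    positivity
  have h1 : ∀ g, ww d (C c * P) (C c * Q) g = κ * ww d P Q g := by
    intro g
    unfold ww
    rw [nu_scale, mul_pow, mul_inv]; ring
  have k0 : I0 d (C c * P) (C c * Q) = κ * I0 d P Q := by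
    unfold I0; simp_rw [h1]; rw [integral_const_mul]
  have k1 : I1 d (C c * P) (C c * Q) = κ * I1 d P Q := by
    unfold I1; simp_rw [h1, mul_assoc]; rw [integral_const_mul]
  have k2 : I2 d (C c * P) (C c * Q) = κ • I2 d P Q := by
    unfold I2; simp_rw [h1, mul_smul]; rw [integral_smul]
  unfold cen
  rw [k0, k1, k2]
  ext
  · simp only
    exact mul_div_mul_left _ _ hκp
  · simp only
    rw [smul_smul, mul_inv, mul_comm κ⁻¹, mul_assoc, inv_mul_cancel₀ hκp, mul_one]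

/-- Coefficient vectors. -/
abbrev EE (d : ℕ) := (Fin (d + 1) → ℂ) × (Fin (d + 1) → ℂ)

/-- The polynomial of a coefficient vector. -/
def toP {d : ℕ} (a : Fin (d + 1) → ℂ) : ℂ[X] := ∑ k, C (a k) * X ^ (k : ℕ)

lemma toP_coeff {d : ℕ} (a : Fin (d + 1) → ℂ) (k : Fin (d + 1)) : (toP a).coeff k = a k := by
  unfold toP
  rw [finsetSum_coeff]
  simp only [coeff_C_mul, coeff_X_pow]
  rw [Finset.sum_eq_single k]
  · simp
  · intro j _ hj
    rw [if_neg, mul_zero]
    intro h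
    exact hj (Fin.ext h.symm)
  · simp

lemma toP_natDegree {d : ℕ} (a : Fin (d + 1) → ℂ) : (toP a).natDegree ≤ d := by
  unfold toP
  apply natDegree_sum_le_of_forall_le
  intro k _
  exact (natDegree_C_mul_X_pow_le _ _).trans (by have := k.2; omega)

lemma toP_of {d : ℕ} (P : ℂ[X]) (hP : P.natDegree ≤ d) :
    toP (fun k : Fin (d + 1) => P.coeff k) = P := by
  ext n
  by_cases hn : n < d + 1
  · exact toP_coeff _ ⟨n, hn⟩
  · rw [coeff_eq_zero_of_natDegree_lt (lt_of_le_of_lt (toP_natDegree _) (by omega)),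
      coeff_eq_zero_of_natDegree_lt (by omega)]

lemma toP_last {d : ℕ} (a : Fin (d + 1) → ℂ) : (toP a).coeff d = a (Fin.last d) :=
  toP_coeff a (Fin.last d)

lemma toP_eval {d : ℕ} (a : Fin (d + 1) → ℂ) (z : ℂ) :
    (toP a).eval z = ∑ k, a k * z ^ (k : ℕ) := by
  unfold toP
  simp [eval_finsetSum]

/-- Homogeneous values. -/
def hom {d : ℕ} (a : Fin (d + 1) → ℂ) (v : ℂ × ℂ) : ℂ :=
  ∑ k : Fin (d + 1), a k * (v.1 ^ (k : ℕ) * v.2 ^ (d - (k : ℕ)))

lemma hom_scale {d : ℕ} (a : Fin (d + 1) → ℂ) (c : ℂ) (v : ℂ × ℂ) :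
    hom a (c * v.1, c * v.2) = c ^ d * hom a v := by
  unfold hom
  rw [Finset.mul_sum]
  refine Finset.sum_congr rfl fun k _ => ?_
  have hk : (k : ℕ) + (d - (k : ℕ)) = d := by have := k.2; omega
  have hcd : c ^ d = c ^ (k : ℕ) * c ^ (d - (k : ℕ)) := by rw [← pow_add, hk]
  simp only [mul_pow]
  rw [hcd]
  ring

lemma hom_one {d : ℕ} (a : Fin (d + 1) → ℂ) (z : ℂ) : hom a (z, 1) = (toP a).eval z := by
  rw [toP_eval]; unfold hom; simp

lemma hom_infty {d : ℕ} (a : Fin (d + 1) → ℂ) (x : ℂ) :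
    hom a (x, 0) = x ^ d * a (Fin.last d) := by
  unfold hom
  rw [Finset.sum_eq_single (Fin.last d)]
  · simp; ring
  · intro k _ hk
    have : d - (k : ℕ) ≠ 0 := by
      have h1 := k.2
      have h2 : (k : ℕ) ≠ d := fun h => hk (Fin.ext h)
      omega
    simp [zero_pow this]
  · simp

lemma continuous_hom {d : ℕ} :
    Continuous fun p : (Fin (d + 1) → ℂ) × (ℂ × ℂ) => hom p.1 p.2 := by
  unfold hom; fun_prop

/-- The nondegenerate vectors have a neighbourhood with a uniform constant. -/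
lemma good_nhds {d : ℕ} {F₀ : EE d} (h1 : IsCoprime (toP F₀.1) (toP F₀.2))
    (h2 : F₀.1 (Fin.last d) ≠ 0 ∨ F₀.2 (Fin.last d) ≠ 0) :
    ∃ m : ℝ, 0 < m ∧ ∀ᶠ F : EE d in 𝓝 F₀, Good d m (toP F.1) (toP F.2) := by
  let S : Set (ℂ × ℂ) := {v | ‖v.1‖ ^ 2 + ‖v.2‖ ^ 2 = 1}
  have hSc : IsCompact S := by
    apply Metric.isCompact_of_isClosed_isBounded
    · exact isClosed_eq (by fun_prop) continuous_const
    · refine (Metric.isBounded_closedBall (x := (0 : ℂ × ℂ)) (r := 1)).subset ?_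
      intro v hv
      rw [mem_closedBall_zero_iff, Prod.norm_def]
      have hv' : ‖v.1‖ ^ 2 + ‖v.2‖ ^ 2 = 1 := hv
      apply max_le
      · nlinarith [sq_nonneg ‖v.2‖, norm_nonneg v.1]
      · nlinarith [sq_nonneg ‖v.1‖, norm_nonneg v.2]
  let G : EE d → ℂ × ℂ → ℝ := fun F v => ‖hom F.1 v‖ ^ 2 + ‖hom F.2 v‖ ^ 2
  have hGc : Continuous fun p : EE d × (ℂ × ℂ) => G p.1 p.2 := by
    have c1 : Continuous fun p : EE d × (ℂ × ℂ) => hom p.1.1 p.2 :=
      continuous_hom.comp ((continuous_fst.comp continuous_fst).prodMk continuous_snd)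
    have c2 : Continuous fun p : EE d × (ℂ × ℂ) => hom p.1.2 p.2 :=
      continuous_hom.comp ((continuous_snd.comp continuous_fst).prodMk continuous_snd)
    exact (c1.norm.pow 2).add (c2.norm.pow 2)
  have hpos : ∀ v ∈ S, 0 < G F₀ v := by
    intro v hv
    have hv' : ‖v.1‖ ^ 2 + ‖v.2‖ ^ 2 = 1 := hv
    have hne : hom F₀.1 v ≠ 0 ∨ hom F₀.2 v ≠ 0 := by
      by_cases h0 : v.2 = 0
      · have hx : v.1 ≠ 0 := by
          intro hx; rw [hx, h0] at hv'; simp at hv'
        have e : v = (v.1, 0) := Prod.ext rfl h0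
        rw [e, hom_infty, hom_infty]
        rcases h2 with h | h
        · left; exact mul_ne_zero (pow_ne_zero _ hx) h
        · right; exact mul_ne_zero (pow_ne_zero _ hx) h
      · have e : v = (v.2 * (v.1 / v.2, (1 : ℂ)).1, v.2 * (v.1 / v.2, (1 : ℂ)).2) := by
          ext
          · simp only; field_simp
          · simp
        rw [e, hom_scale, hom_scale, hom_one, hom_one]
        obtain ⟨u, w, huw⟩ := h1
        by_contra hcon
        push Not at hcon
        obtain ⟨ha, hb⟩ := hcon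
        have ha' := (mul_eq_zero.mp ha).resolve_left (pow_ne_zero _ h0)
        have hb' := (mul_eq_zero.mp hb).resolve_left (pow_ne_zero _ h0)
        have := congrArg (fun R => R.eval (v.1 / v.2)) huw
        simp [ha', hb'] at this
    show 0 < ‖hom F₀.1 v‖ ^ 2 + ‖hom F₀.2 v‖ ^ 2
    rcases hne with h | h
    · have := norm_pos_iff.mpr h; positivity
    · have := norm_pos_iff.mpr h; positivity
  have hSne : S.Nonempty := ⟨(1, 0), by simp [S]⟩
  obtain ⟨v₀, hv₀, hmin⟩ := hSc.exists_isMinOn hSne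
    (hGc.comp (Continuous.prodMk_right F₀)).continuousOn
  set m := G F₀ v₀ / 2 with hm
  have hm0 : 0 < G F₀ v₀ := hpos v₀ hv₀
  refine ⟨m, by positivity, ?_⟩
  have hev : ∀ᶠ F : EE d in 𝓝 F₀, ∀ v ∈ S, m < G F v := by
    apply hSc.eventually_forall_of_forall_eventually
    intro v hv
    apply hGc.continuousAt.eventually_mem (lt_mem_nhds _)
    have : G F₀ v₀ ≤ G F₀ v := hmin hv
    show m < G F₀ v
    rw [hm]; linarith
  filter_upwards [hev] with F hF
  constructor
  · have := hF (1, 0) (by simp [S])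
    simp only [G, hom_infty, one_pow, one_mul] at this
    rw [toP_last, toP_last]; exact this.le
  · intro z
    have hr : 0 < Real.sqrt (1 + ‖z‖ ^ 2) := Real.sqrt_pos.mpr (by positivity)
    set r := Real.sqrt (1 + ‖z‖ ^ 2) with hrdef
    have hr2 : r ^ 2 = 1 + ‖z‖ ^ 2 := Real.sq_sqrt (by positivity)
    have hrc : (r : ℂ) ≠ 0 := by exact_mod_cast hr.ne'
    have hvS : (((r : ℂ)⁻¹ * z, (r : ℂ)⁻¹ * 1) : ℂ × ℂ) ∈ S := by
      show ‖(r : ℂ)⁻¹ * z‖ ^ 2 + ‖(r : ℂ)⁻¹ * 1‖ ^ 2 = 1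
      rw [norm_mul, norm_mul, norm_inv, Complex.norm_real, Real.norm_eq_abs, abs_of_pos hr,
        norm_one, mul_pow, mul_pow, inv_pow, hr2]
      field_simp
      ring
    have h3 := hF _ hvS
    simp only [G] at h3
    have e1 := hom_scale F.1 ((r : ℂ)⁻¹) (z, 1)
    have e2 := hom_scale F.2 ((r : ℂ)⁻¹) (z, 1)
    simp only at e1 e2
    rw [e1, e2, hom_one, hom_one, norm_mul, norm_mul, norm_pow, norm_inv, Complex.norm_real,
      Real.norm_eq_abs, abs_of_pos hr] at h3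
    have h4 : (r⁻¹ ^ d * ‖(toP F.1).eval z‖) ^ 2 + (r⁻¹ ^ d * ‖(toP F.2).eval z‖) ^ 2
        = ((1 + ‖z‖ ^ 2) ^ d)⁻¹ * (‖(toP F.1).eval z‖ ^ 2 + ‖(toP F.2).eval z‖ ^ 2) := by
      rw [← hr2, ← inv_pow, mul_pow, mul_pow]
      ring
    rw [h4] at h3
    have h5 : 0 < (1 + ‖z‖ ^ 2) ^ d := by positivity
    rw [← div_eq_inv_mul, lt_div_iff₀ h5] at h3
    exact h3.le

lemma continuousAt_cen {d : ℕ} (hd : 2 ≤ d) {F₀ : EE d} (h1 : IsCoprime (toP F₀.1) (toP F₀.2))
    (h2 : F₀.1 (Fin.last d) ≠ 0 ∨ F₀.2 (Fin.last d) ≠ 0) :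
    ContinuousAt (fun F : EE d => cen d (toP F.1) (toP F.2)) F₀ := by
  obtain ⟨m, hm, hG⟩ := good_nhds h1 h2
  have hG0 : Good d m (toP F₀.1) (toP F₀.2) := hG.self_of_nhds
  have hnu : ∀ g, Continuous fun F : EE d => nu d (toP F.1) (toP F.2) g := by
    intro g
    unfold nu
    simp only [toP_last, toP_eval]
    fun_prop
  have hww : ∀ g, ContinuousAt (fun F : EE d => ww d (toP F.1) (toP F.2) g) F₀ := by
    intro g
    unfold ww
    refine ContinuousAt.mul (ContinuousAt.inv₀ ((hnu g).pow 16).continuousAt ?_)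
      continuousAt_const
    exact pow_ne_zero _ (nu_pos hd hm hG0 g).ne'
  have c0 : ContinuousAt (fun F : EE d => I0 d (toP F.1) (toP F.2)) F₀ := by
    unfold I0
    refine continuousAt_of_dominated (bound := fun g => cst d m * dom g) ?_ ?_
      (integrable_dom.const_mul _) ?_
    · filter_upwards [hG] with F hF using (continuous_ww hd hm hF).aestronglyMeasurable
    · filter_upwards [hG] with F hF using Eventually.of_forall (bound0 hd hm hF)
    · exact Eventually.of_forall hww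
  have c1 : ContinuousAt (fun F : EE d => I1 d (toP F.1) (toP F.2)) F₀ := by
    unfold I1
    refine continuousAt_of_dominated (bound := fun g => cst d m * dom g) ?_ ?_
      (integrable_dom.const_mul _) ?_
    · filter_upwards [hG] with F hF using
        ((continuous_ww hd hm hF).mul continuous_fst).aestronglyMeasurable
    · filter_upwards [hG] with F hF using Eventually.of_forall (bound1 hd hm hF)
    · exact Eventually.of_forall fun g => (hww g).mul continuousAt_const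
  have c2 : ContinuousAt (fun F : EE d => I2 d (toP F.1) (toP F.2)) F₀ := by
    unfold I2
    refine continuousAt_of_dominated (bound := fun g => cst d m * dom g) ?_ ?_
      (integrable_dom.const_mul _) ?_
    · filter_upwards [hG] with F hF using
        ((continuous_ww hd hm hF).smul continuous_snd).aestronglyMeasurable
    · filter_upwards [hG] with F hF using Eventually.of_forall (bound2 hd hm hF)
    · exact Eventually.of_forall fun g => (hww g).smul continuousAt_const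
  have hI := (I0_pos hd hm hG0).ne'
  unfold cen
  exact (c1.div c0 hI).prodMk ((c0.inv₀ hI).smul c2)

end

end Pool.Agent.Lib.HermanClass
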