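import Pool.Agent.Lib.MP_9a5726_an.Phi

/-!
# The product decomposition
-/

open Topology Polynomial OnePoint Filter MeasureTheory

namespace Pool.Agent.Lib.HermanClass

noncomputable section

lemma continuousAt_sph {p : ℂ × ℂ} (hp : p.1 ≠ 0 ∨ p.2 ≠ 0) :
    ContinuousAt (fun q : ℂ × ℂ => sph q.1 q.2) p := by
  by_cases h : p.2 = 0
  · have hx : p.1 ≠ 0 := by rcases hp with h' | h'; exacts [h', absurd h h']
    have e : sph p.1 p.2 = ∞ := by simp [sph, h]
    rw [ContinuousAt, e, OnePoint.hasBasis_nhds_infty.tendsto_right_iff]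
    rintro s ⟨-, hs⟩
    obtain ⟨R, hR⟩ := hs.isBounded.exists_norm_le
    have hc : Continuous fun q : ℂ × ℂ => ‖q.2‖ * (|R| + 1) - ‖q.1‖ := by fun_prop
    have h1 : ∀ᶠ q in 𝓝 p, ‖q.2‖ * (|R| + 1) - ‖q.1‖ < 0 := by
      apply hc.continuousAt.eventually_mem (gt_mem_nhds _)
      show ‖p.2‖ * (|R| + 1) - ‖p.1‖ < 0
      rw [h]; simp [hx]
    filter_upwards [h1] with q hq
    by_cases hq2 : q.2 = 0
    · right; simp [sph, hq2]
    · left
      refine ⟨q.1 / q.2, ?_, by simp [sph, hq2]⟩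
      intro hmem
      have h2 := hR _ hmem
      rw [norm_div, div_le_iff₀ (norm_pos_iff.mpr hq2)] at h2
      have h3 : R * ‖q.2‖ ≤ ‖q.2‖ * (|R| + 1) := by
        rw [mul_comm]
        exact mul_le_mul_of_nonneg_left (by linarith [le_abs_self R]) (norm_nonneg _)
      linarith
  · have h1 : ∀ᶠ q in 𝓝 p, sph q.1 q.2 = ((q.1 / q.2 : ℂ) : OnePoint ℂ) := by
      filter_upwards [continuous_snd.continuousAt.eventually_ne h] with q hq
      simp only [sph]; rw [if_neg hq]
    have h2 : ContinuousAt (fun q : ℂ × ℂ => ((q.1 / q.2 : ℂ) : OnePoint ℂ)) p :=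
      OnePoint.continuous_coe.continuousAt.comp
        (continuous_fst.continuousAt.div continuous_snd.continuousAt h)
    exact h2.congr (h1.mono fun q hq => hq.symm)

lemma sph_inj {x y x' y' : ℂ} (he : sph x y = sph x' y') : x * y' = x' * y := by
  unfold sph at he
  split_ifs at he with h1 h2 h2
  · rw [h1, h2]; ring
  · exact absurd he (OnePoint.infty_ne_coe _)
  · exact absurd he (OnePoint.coe_ne_infty _)
  · rw [OnePoint.some_eq_iff, div_eq_div_iff h1 h2] at he
    exact he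

/-- Proportionality to a coprime pair. -/
lemma prop_of_eval {d : ℕ} {P Q A B : ℂ[X]} (hc : IsCoprime P Q) (hP : P.natDegree ≤ d)
    (hQ : Q.natDegree ≤ d) (hl : P.coeff d ≠ 0 ∨ Q.coeff d ≠ 0) (hA : A.natDegree ≤ d)
    (hB : B.natDegree ≤ d) (hAB : A ≠ 0 ∨ B ≠ 0)
    (he : ∀ z : ℂ, A.eval z * Q.eval z = P.eval z * B.eval z) :
    ∃ c : ℂ, c ≠ 0 ∧ A = C c * P ∧ B = C c * Q := by
  have hpoly : A * Q = P * B := Polynomial.funext fun z => by
    rw [eval_mul, eval_mul]; exact he z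
  obtain ⟨u, v, huv⟩ := hc
  set h := u * A + v * B with hh
  have h1 : h * P = A := by
    calc h * P = A * (u * P) + v * (P * B) := by rw [hh]; ring
      _ = A * (u * P) + v * (A * Q) := by rw [hpoly]
      _ = A * (u * P + v * Q) := by ring
      _ = A := by rw [huv, mul_one]
  have h2 : h * Q = B := by
    calc h * Q = u * (A * Q) + B * (v * Q) := by rw [hh]; ring
      _ = u * (P * B) + B * (v * Q) := by rw [hpoly]
      _ = B * (u * P + v * Q) := by ring
      _ = B := by rw [huv, mul_one]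
  have hne : h ≠ 0 := by
    intro h0
    rw [h0, zero_mul] at h1 h2
    rcases hAB with h | h
    · exact h h1.symm
    · exact h h2.symm
  have hdeg : h.natDegree = 0 := by
    rcases hl with h3 | h3
    · have hP0 : P ≠ 0 := by rintro rfl; simp at h3
      have e1 : P.natDegree = d := le_antisymm hP (le_natDegree_of_ne_zero h3)
      have e2 := natDegree_mul hne hP0
      rw [h1, e1] at e2; omega
    · have hQ0 : Q ≠ 0 := by rintro rfl; simp at h3
      have e1 : Q.natDegree = d := le_antisymm hQ (le_natDegree_of_ne_zero h3)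
      have e2 := natDegree_mul hne hQ0
      rw [h2, e1] at e2; omega
  rw [eq_C_of_natDegree_eq_zero hdeg] at h1 h2 hne
  refine ⟨h.coeff 0, ?_, h1.symm, h2.symm⟩
  intro h0; rw [h0] at hne; simp at hne

lemma rep_eval_ne {d : ℕ} {P Q : ℂ[X]} {f : C(OnePoint ℂ, OnePoint ℂ)} (h : Rep d P Q f)
    (z : ℂ) : P.eval z ≠ 0 ∨ Q.eval z ≠ 0 := by
  obtain ⟨-, -, ⟨u, v, huv⟩, -, -⟩ := h
  by_contra hcon
  push Not at hcon
  have := congrArg (fun R => R.eval z) huv
  simp [hcon.1, hcon.2] at this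

lemma rep_unique {d : ℕ} {P Q A B : ℂ[X]} {f : C(OnePoint ℂ, OnePoint ℂ)} (h : Rep d P Q f)
    (h' : Rep d A B f) : ∃ c : ℂ, c ≠ 0 ∧ A = C c * P ∧ B = C c * Q := by
  refine prop_of_eval h.2.2.1 h.1 h.2.1 h.2.2.2.1 h'.1 h'.2.1 ?_ ?_
  · rcases h'.2.2.2.1 with h1 | h1
    · left; rintro rfl; simp at h1
    · right; rintro rfl; simp at h1
  · intro z
    have e1 : sph (P.eval z) (Q.eval z) = f z := (h.2.2.2.2 z).symm
    have e2 : sph (A.eval z) (B.eval z) = f z := (h'.2.2.2.2 z).symm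
    exact sph_inj (e2.trans e1.symm)

lemma rep_scale {d : ℕ} {P Q : ℂ[X]} {f : C(OnePoint ℂ, OnePoint ℂ)} (h : Rep d P Q f) {c : ℂ}
    (hc : c ≠ 0) : Rep d (C c * P) (C c * Q) f := by
  obtain ⟨h1, h2, ⟨u, v, huv⟩, h3, hf⟩ := h
  refine ⟨(natDegree_C_mul_le _ _).trans h1, (natDegree_C_mul_le _ _).trans h2,
    ⟨u * C c⁻¹, v * C c⁻¹, ?_⟩, ?_, ?_⟩
  · have hcc : C c⁻¹ * C c = (1 : ℂ[X]) := by rw [← C_mul, inv_mul_cancel₀ hc, C_1]
    calc _ = (C c⁻¹ * C c) * (u * P + v * Q) := by ring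
      _ = 1 := by rw [hcc, huv, mul_one]
  · rw [coeff_C_mul, coeff_C_mul]
    rcases h3 with h | h
    · left; exact mul_ne_zero hc h
    · right; exact mul_ne_zero hc h
  · intro z
    rw [hf z]
    induction z using OnePoint.rec with
    | infty =>
      show sph _ _ = sph _ _
      rw [coeff_C_mul, coeff_C_mul, sph_mul _ _ _ hc]
    | coe w =>
      show sph _ _ = sph _ _
      rw [eval_mul, eval_mul, eval_C, sph_mul _ _ _ hc]

lemma exists_lift {d : ℕ} (hd : 1 ≤ d) (f : RatMap d) :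
    ∃ F : EE d, ‖F‖ = 1 ∧ Rep d (toP F.1) (toP F.2) f := by
  obtain ⟨P, Q, h⟩ := (mem_ratMap_iff hd _).mp f.2
  let F : EE d := (fun k => P.coeff k, fun k => Q.coeff k)
  have hF1 : toP F.1 = P := toP_of P h.1
  have hF2 : toP F.2 = Q := toP_of Q h.2.1
  have hne : F ≠ 0 := by
    intro h0
    rcases h.2.2.2.1 with h1 | h1
    · apply h1
      have : F.1 (Fin.last d) = 0 := by rw [h0]; rfl
      exact this
    · apply h1
      have : F.2 (Fin.last d) = 0 := by rw [h0]; rfl
      exact this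
  have hn : 0 < ‖F‖ := norm_pos_iff.mpr hne
  refine ⟨((‖F‖⁻¹ : ℝ) : ℂ) • F, ?_, ?_⟩
  · rw [norm_smul, Complex.norm_real, norm_inv, norm_norm, inv_mul_cancel₀ hn.ne']
  · have hs : ∀ (c : ℂ) (a : Fin (d + 1) → ℂ), toP (c • a) = C c * toP a := by
      intro c a
      unfold toP
      rw [Finset.mul_sum]
      refine Finset.sum_congr rfl fun k _ => ?_
      simp only [Pi.smul_apply, smul_eq_mul, C_mul]; ring
    have e1 : toP (((‖F‖⁻¹ : ℝ) : ℂ) • F).1 = C ((‖F‖⁻¹ : ℝ) : ℂ) * P := by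
      rw [Prod.smul_fst, hs, hF1]
    have e2 : toP (((‖F‖⁻¹ : ℝ) : ℂ) • F).2 = C ((‖F‖⁻¹ : ℝ) : ℂ) * Q := by
      rw [Prod.smul_snd, hs, hF2]
    rw [e1, e2]
    apply rep_scale h
    exact_mod_cast (inv_pos.mpr hn).ne'

/-- A normalised coefficient vector. -/
def lift {d : ℕ} (hd : 1 ≤ d) (f : RatMap d) : EE d := (exists_lift hd f).choose

lemma lift_norm {d : ℕ} (hd : 1 ≤ d) (f : RatMap d) : ‖lift hd f‖ = 1 :=
  (exists_lift hd f).choose_spec.1

lemma lift_rep {d : ℕ} (hd : 1 ≤ d) (f : RatMap d) :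
    Rep d (toP (lift hd f).1) (toP (lift hd f).2) f := (exists_lift hd f).choose_spec.2

/-- The equivariant map. -/
def Phi {d : ℕ} (hd : 1 ≤ d) (f : RatMap d) : ℝ × ℂ :=
  cen d (toP (lift hd f).1) (toP (lift hd f).2)

lemma Phi_eq {d : ℕ} (hd : 1 ≤ d) {f : RatMap d} {P Q : ℂ[X]} (h : Rep d P Q f) :
    Phi hd f = cen d P Q := by
  obtain ⟨c, hc, h1, h2⟩ := rep_unique h (lift_rep hd f)
  unfold Phi
  rw [h1, h2, cen_scale _ _ _ _ hc]

lemma Phi_act {d : ℕ} (hd : 2 ≤ d) (g : ℝ × ℂ) (f : RatMap d) :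
    Phi (by omega) (act (by omega : 1 ≤ d) g f) = mu g (Phi (by omega) f) := by
  have hd1 : 1 ≤ d := by omega
  have h := lift_rep hd1 f
  have h' := rep_cj g h
  rw [Phi_eq hd1 (f := act hd1 g f) h']
  obtain ⟨m, hm, hG⟩ := good_nhds (F₀ := lift hd1 f) h.2.2.1 (by
    have := h.2.2.2.1
    rwa [toP_last, toP_last] at this)
  exact cen_cj hd hm hG.self_of_nhds h.1 h.2.1 g

lemma continuous_Phi {d : ℕ} (hd : 2 ≤ d) : Continuous (Phi (by omega : 1 ≤ d)) := by
  have hd1 : 1 ≤ d := by omega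
  rw [continuous_iff_ultrafilter]
  intro f 𝒰 h𝒰
  have hcomp : IsCompact (Metric.sphere (0 : EE d) 1) := isCompact_sphere _ _
  obtain ⟨F, hF, hconv⟩ := hcomp.ultrafilter_le_nhds (𝒰.map (lift hd1)) (by
    rw [le_principal_iff, Ultrafilter.coe_map, mem_map]
    refine Filter.mem_of_superset univ_mem fun x _ => ?_
    simp [lift_norm])
  have hconv' : Tendsto (lift hd1) 𝒰 (𝓝 F) := hconv
  have hF1 : ‖F‖ = 1 := by simpa using hF
  have hFne : F ≠ 0 := by rintro rfl; simp at hF1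
  have hrep := lift_rep hd1 f
  set P := toP (lift hd1 f).1 with hP
  set Q := toP (lift hd1 f).2 with hQ
  have hev : ∀ z : ℂ, (toP F.1).eval z * Q.eval z = P.eval z * (toP F.2).eval z := by
    intro z
    by_cases h0 : (toP F.1).eval z ≠ 0 ∨ (toP F.2).eval z ≠ 0
    · have c1 : Continuous fun G : EE d => ((toP G.1).eval z, (toP G.2).eval z) := by
        simp only [toP_eval]; fun_prop
      have t1 : Tendsto (fun x => sph ((toP (lift hd1 x).1).eval z) ((toP (lift hd1 x).2).eval z))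
          𝒰 (𝓝 (sph ((toP F.1).eval z) ((toP F.2).eval z))) :=
        (continuousAt_sph (p := ((toP F.1).eval z, (toP F.2).eval z)) h0).tendsto.comp
          ((c1.tendsto F).comp hconv')
      have t2 : Tendsto (fun x : RatMap d => (x : C(OnePoint ℂ, OnePoint ℂ)) (z : OnePoint ℂ))
          𝒰 (𝓝 ((f : C(OnePoint ℂ, OnePoint ℂ)) (z : OnePoint ℂ))) :=
        (((continuous_eval_const (z : OnePoint ℂ)).comp
          continuous_subtype_val).tendsto f).mono_left h𝒰
      have t3 : (fun x : RatMap d => (x : C(OnePoint ℂ, OnePoint ℂ)) (z : OnePoint ℂ))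
          = fun x => sph ((toP (lift hd1 x).1).eval z) ((toP (lift hd1 x).2).eval z) := by
        funext x
        exact (lift_rep hd1 x).2.2.2.2 z
      rw [t3] at t2
      have e := tendsto_nhds_unique t1 t2
      rw [hrep.2.2.2.2 z] at e
      exact sph_inj e
    · push Not at h0
      rw [h0.1, h0.2]; ring
  have hAB : toP F.1 ≠ 0 ∨ toP F.2 ≠ 0 := by
    by_contra hcon
    push Not at hcon
    apply hFne
    ext k
    · rw [← toP_coeff F.1 k, hcon.1]; simp
    · rw [← toP_coeff F.2 k, hcon.2]; simp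
  obtain ⟨c, hc, e1, e2⟩ := prop_of_eval hrep.2.2.1 hrep.1 hrep.2.1 hrep.2.2.2.1
    (toP_natDegree F.1) (toP_natDegree F.2) hAB hev
  have hrepF : Rep d (toP F.1) (toP F.2) f := by rw [e1, e2]; exact rep_scale hrep hc
  have hcont := continuousAt_cen hd (F₀ := F) hrepF.2.2.1 (by
    have := hrepF.2.2.2.1
    rwa [toP_last, toP_last] at this)
  have := hcont.tendsto.comp hconv'
  rw [Phi_eq hd1 hrepF]
  exact this

lemma isClosed_relBoundary {X : Type*} [TopologicalSpace X] (H : Set X) :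
    IsClosed (relBoundary H) := by
  rw [← closure_subset_iff_isClosed]
  intro x hx
  have h1 : x ∈ closure H :=
    isClosed_closure.closure_subset_iff.mpr (fun y hy => hy.1) hx
  refine ⟨h1, fun h2 => ?_⟩
  rw [mem_nhdsWithin] at h2
  obtain ⟨U, hU, hxU, hUH⟩ := h2
  obtain ⟨y, hyU, hy⟩ := mem_closure_iff.mp hx U hU hxU
  exact hy.2 (mem_nhdsWithin.mpr ⟨U, hU, hyU, hUH⟩)

/-- The product decomposition of an invariant set. -/
theorem product {d : ℕ} (hd : 2 ≤ d) (B : Set (RatMap d))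
    (hB : ∀ g, ∀ f ∈ B, act (by omega : 1 ≤ d) g f ∈ B) (hBc : IsClosed B) :
    ∃ N : Set (RatMap d), IsClosed N ∧ N ⊆ B ∧
      Nonempty (B ≃ₜ N × EuclideanSpace ℝ (Fin 3)) := by
  have hd1 : 1 ≤ d := by omega
  have hPhi := continuous_Phi hd
  refine ⟨{f | f ∈ B ∧ Phi hd1 f = 0}, ?_, fun f hf => hf.1, ?_⟩
  · exact hBc.inter (isClosed_eq hPhi continuous_const)
  let e : B ≃ₜ {f | f ∈ B ∧ Phi hd1 f = 0} × (ℝ × ℂ) :=
    { toFun := fun f => (⟨act hd1 (iv (Phi hd1 f.1)) f.1, hB _ _ f.2, by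
        rw [Phi_act hd, iv_mu]⟩, Phi hd1 f.1)
      invFun := fun p => ⟨act hd1 p.2 p.1.1, hB _ _ p.1.2.1⟩
      left_inv := fun f => by
        apply Subtype.ext
        simp only
        rw [← act_mu, mu_iv, act_zero]
      right_inv := fun p => by
        have h1 : Phi hd1 (act hd1 p.2 p.1.1) = p.2 := by
          rw [Phi_act hd, p.1.2.2, mu_zero]
        ext1
        · apply Subtype.ext
          simp only
          rw [h1, ← act_mu, iv_mu, act_zero]
        · simp only
          exact h1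
      continuous_toFun := by
        have c1 : Continuous fun f : B => Phi hd1 f.1 := hPhi.comp continuous_subtype_val
        refine Continuous.prodMk (Continuous.subtype_mk ?_ _) c1
        exact (continuous_act hd1).comp ((continuous_iv.comp c1).prodMk continuous_subtype_val)
      continuous_invFun := by
        refine Continuous.subtype_mk ?_ _
        exact (continuous_act hd1).comp (continuous_snd.prodMk
          (continuous_subtype_val.comp continuous_fst)) }
  have e2 : (ℝ × ℂ) ≃L[ℝ] EuclideanSpace ℝ (Fin 3) :=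
    ContinuousLinearEquiv.ofFinrankEq (by
      rw [Module.finrank_prod, Complex.finrank_real_complex]; simp)
  exact ⟨e.trans ((Homeomorph.refl _).prodCongr e2.toHomeomorph)⟩

end

end Pool.Agent.Lib.HermanClass
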